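import Pool.Agent.Helper82.QG.D20
import Pool.Agent.Helper40.QL.D4

/-!
# QG-Hyp: the hypothesis `Dec20` of project QL holds
-/

set_option autoImplicit false

namespace Pool.Agent.Helper60.QL

/-- the decoupling theorem of order twenty, in the form used by project QL -/
theorem dec20_all {lam : ℝ} (hl : 1 ≤ lam) : ∀ ε : ℝ, 0 < ε → ∃ M : ℕ, 2 ≤ M ∧ ∃ C₀ : ℝ, 1 ≤ C₀ ∧ Dec20 ε lam M C₀ :=
  fun _ hε => Pool.Agent.Helper82.QG.dec20_t0 hε hl

end Pool.Agent.Helper60.QL
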