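import Pool.Agent.Helper82.QG.Defs

/-!
# QG-A1: orthogonality for the sums `hq`
-/

open MeasureTheory Real Set Filter Topology

set_option autoImplicit false

namespace Pool.Agent.Helper82.QG

open Pool.Agent.Helper22.AE
open Pool.Agent.Helper92.GC
open Pool.Agent.Helper22.AC (IsWt)

theorem hE_cont (k : ℤ × ℤ) (ξ η ζ : ℝ) : Continuous (hE k ξ η ζ) := by
  unfold hE dt
  exact ee_cont.comp (by fun_prop)

theorem hE_norm (k : ℤ × ℤ) (ξ η ζ : ℝ) (q : Vr) : ‖hE k ξ η ζ q‖ = 1 := ee_norm _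

theorem hq_cont (S : Finset (ℤ × ℤ)) (a : ℤ × ℤ → ℂ) (f g h : ℤ × ℤ → ℝ) : Continuous (hq S a f g h) := by
  unfold hq
  exact continuous_finsetSum _ fun k _ => continuous_const.mul (hE_cont _ _ _ _)

theorem hq_norm_le (S : Finset (ℤ × ℤ)) (a : ℤ × ℤ → ℂ) (f g h : ℤ × ℤ → ℝ) (q : Vr) : ‖hq S a f g h q‖ ≤ ∑ k ∈ S, ‖a k‖ := by
  unfold hq
  refine (norm_sum_le _ _).trans (le_of_eq (Finset.sum_congr rfl fun k _ => ?_))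
  rw [norm_mul, hE_norm, mul_one]

theorem wm_prob {X : ℝ} {v : ℝ → ℝ} (hv : IsWt X v) : IsProbabilityMeasure (wm v) := by
  have hint : Integrable v := by
    by_contra hcon
    have h2 := hv.int_one
    rw [integral_undef hcon] at h2
    exact zero_ne_one h2
  constructor
  unfold wm
  rw [withDensity_apply _ MeasurableSet.univ, Measure.restrict_univ,
    ← ofReal_integral_eq_lintegral_ofReal hint (Eventually.of_forall hv.nonneg), hv.int_one,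
    ENNReal.ofReal_one]

theorem tq_prob : IsProbabilityMeasure ((volume : Measure (ℝ × ℝ)).restrict Tq) := by
  constructor
  unfold Tq
  rw [Measure.restrict_apply_univ, Measure.volume_eq_prod, Measure.prod_prod, Real.volume_Icc,
    sub_zero, ENNReal.ofReal_one, mul_one]

theorem mu3_prob {X₁ X₂ X₃ : ℝ} {v w z : ℝ → ℝ} (hv : IsWt X₁ v) (hw : IsWt X₂ w) (hz : IsWt X₃ z) :
    IsProbabilityMeasure (mu3 v w z) := by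
  have h1 := tq_prob
  have h2 := wm_prob hv
  have h3 := wm_prob hw
  have h4 := wm_prob hz
  unfold mu3
  infer_instance

private theorem a1_wt {X : ℝ} {v : ℝ → ℝ} (hv : IsWt X v) {ξ : ℝ} (h : 1 / X ≤ |ξ|) :
    ∫ R, ee (R * ξ) ∂(wm v) = 0 := by
  unfold wm
  rw [integral_withDensity_eq_integral_toReal_smul
    (hv.cont.measurable.ennreal_ofReal) (Filter.Eventually.of_forall fun _ => ENNReal.ofReal_lt_top)]
  have h1 := hv.four (-ξ) (by rwa [abs_neg])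
  rw [← h1]
  refine integral_congr_ae (Eventually.of_forall fun R => ?_)
  simp only
  rw [ENNReal.toReal_ofReal (hv.nonneg R), Complex.real_smul]
  congr 2
  ring

theorem hE_int {X₁ X₂ X₃ : ℝ} {v w z : ℝ → ℝ} (hv : IsWt X₁ v) (hw : IsWt X₂ w) (hz : IsWt X₃ z) (k : ℤ × ℤ) (ξ η ζ : ℝ)
    (h : k ≠ 0 ∨ 1 / X₁ ≤ |ξ| ∨ 1 / X₂ ≤ |η| ∨ 1 / X₃ ≤ |ζ|) : ∫ q, hE k ξ η ζ q ∂(mu3 v w z) = 0 := by
  have h1 := tq_prob
  have h2 := wm_prob hv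
  have h3 := wm_prob hw
  have h4 := wm_prob hz
  have e1 : (fun q => hE k ξ η ζ q) = fun q : Vr =>
      ee (dt k q.1) * (ee (q.2.1 * ξ) * (ee (q.2.2.1 * η) * ee (q.2.2.2 * ζ))) := by
    funext q
    unfold hE
    rw [ee_add, ee_add, ee_add, mul_assoc, mul_assoc]
  rw [e1]
  unfold mu3
  rw [integral_prod_mul (fun c : ℝ × ℝ => ee (dt k c)) (fun r : ℝ × ℝ × ℝ => ee (r.1 * ξ) * (ee (r.2.1 * η) * ee (r.2.2 * ζ))),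
    integral_prod_mul (fun R : ℝ => ee (R * ξ)) (fun r : ℝ × ℝ => ee (r.1 * η) * ee (r.2 * ζ)),
    integral_prod_mul (fun R : ℝ => ee (R * η)) (fun Z : ℝ => ee (Z * ζ))]
  rcases h with h | h | h | h
  · rw [ee_int, if_neg h, zero_mul]
  · rw [a1_wt hv h, zero_mul, mul_zero]
  · rw [a1_wt hw h, zero_mul, mul_zero, mul_zero]
  · rw [a1_wt hz h, mul_zero, mul_zero, mul_zero]

/-- bounded continuous -/
def BC (g : Vr → ℂ) : Prop := Continuous g ∧ ∃ B : ℝ, ∀ q, ‖g q‖ ≤ B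

theorem BC_mul {f g : Vr → ℂ} (hf : BC f) (hg : BC g) : BC (fun q => f q * g q) := by
  obtain ⟨hf1, B, hB⟩ := hf
  obtain ⟨hg1, B', hB'⟩ := hg
  refine ⟨hf1.mul hg1, B * B', fun q => ?_⟩
  rw [norm_mul]
  exact mul_le_mul (hB q) (hB' q) (norm_nonneg _) ((norm_nonneg _).trans (hB q))

theorem BC_conj {f : Vr → ℂ} (hf : BC f) : BC (fun q => (starRingEnd ℂ) (f q)) := by
  obtain ⟨hf1, B, hB⟩ := hf
  refine ⟨Complex.continuous_conj.comp hf1, B, fun q => ?_⟩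
  rw [RCLike.norm_conj]
  exact hB q

theorem BC_hq (S : Finset (ℤ × ℤ)) (a : ℤ × ℤ → ℂ) (f g h : ℤ × ℤ → ℝ) : BC (hq S a f g h) :=
  ⟨hq_cont S a f g h, _, hq_norm_le S a f g h⟩

theorem BC_E (k : ℤ × ℤ) (ξ η ζ : ℝ) : BC (hE k ξ η ζ) := ⟨hE_cont k ξ η ζ, 1, fun q => (hE_norm k ξ η ζ q).le⟩

theorem BC_int {X₁ X₂ X₃ : ℝ} {v w z : ℝ → ℝ} (hv : IsWt X₁ v) (hw : IsWt X₂ w) (hz : IsWt X₃ z) {f : Vr → ℂ}
    (hf : BC f) : Integrable f (mu3 v w z) := by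
  have := mu3_prob hv hw hz
  obtain ⟨hf1, B, hB⟩ := hf
  exact Integrable.of_bound hf1.aestronglyMeasurable B (Filter.Eventually.of_forall hB)

theorem E_mul (k y : ℤ × ℤ) (ξ η ζ ξ' η' ζ' : ℝ) (q : Vr) :
    hE k ξ η ζ q * hE y ξ' η' ζ' q = hE (k + y) (ξ + ξ') (η + η') (ζ + ζ') q := by
  unfold hE
  rw [← ee_add, dt_add]
  congr 1
  ring

private theorem dt_neg' (k : ℤ × ℤ) (c : ℝ × ℝ) : dt (-k) c = -dt k c := by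
  unfold dt
  rw [Prod.fst_neg, Prod.snd_neg]
  push_cast
  ring

theorem E_conj (y : ℤ × ℤ) (ξ η ζ : ℝ) (q : Vr) : (starRingEnd ℂ) (hE y ξ η ζ q) = hE (-y) (-ξ) (-η) (-ζ) q := by
  unfold hE
  rw [← ee_neg, dt_neg']
  congr 1
  ring

theorem step {X₁ X₂ X₃ : ℝ} {v w z : ℝ → ℝ} (hv : IsWt X₁ v) (hw : IsWt X₂ w) (hz : IsWt X₃ z) {G : Vr → ℂ} (hG : BC G)
    {C : ℤ × ℤ → ℝ → ℝ → ℝ → Prop} (hC : ∀ k ξ η ζ, C k ξ η ζ → ∫ q, hE k ξ η ζ q * G q ∂(mu3 v w z) = 0)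
    (B : Finset (ℤ × ℤ)) (a : ℤ × ℤ → ℂ) (f g h : ℤ × ℤ → ℝ) (k : ℤ × ℤ) (ξ η ζ : ℝ)
    (hh : ∀ y ∈ B, C (k + y) (ξ + f y) (η + g y) (ζ + h y)) :
    ∫ q, hE k ξ η ζ q * (hq B a f g h q * G q) ∂(mu3 v w z) = 0 := by
  have e1 : (fun q => hE k ξ η ζ q * (hq B a f g h q * G q)) =
      fun q => ∑ y ∈ B, a y * (hE (k + y) (ξ + f y) (η + g y) (ζ + h y) q * G q) := by
    funext q
    unfold hq
    rw [Finset.sum_mul, Finset.mul_sum]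
    refine Finset.sum_congr rfl fun y _ => ?_
    rw [← E_mul]
    ring
  rw [e1, integral_finsetSum]
  · refine Finset.sum_eq_zero fun y hy => ?_
    rw [integral_const_mul, hC _ _ _ _ (hh y hy), mul_zero]
  · intro y _
    exact (BC_int hv hw hz (BC_mul (BC_E _ _ _ _) hG)).const_mul _

theorem stepc {X₁ X₂ X₃ : ℝ} {v w z : ℝ → ℝ} (hv : IsWt X₁ v) (hw : IsWt X₂ w) (hz : IsWt X₃ z) {G : Vr → ℂ} (hG : BC G)
    {C : ℤ × ℤ → ℝ → ℝ → ℝ → Prop} (hC : ∀ k ξ η ζ, C k ξ η ζ → ∫ q, hE k ξ η ζ q * G q ∂(mu3 v w z) = 0)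
    (B : Finset (ℤ × ℤ)) (a : ℤ × ℤ → ℂ) (f g h : ℤ × ℤ → ℝ) (k : ℤ × ℤ) (ξ η ζ : ℝ)
    (hh : ∀ y ∈ B, C (k - y) (ξ - f y) (η - g y) (ζ - h y)) :
    ∫ q, hE k ξ η ζ q * ((starRingEnd ℂ) (hq B a f g h q) * G q) ∂(mu3 v w z) = 0 := by
  have e1 : (fun q => hE k ξ η ζ q * ((starRingEnd ℂ) (hq B a f g h q) * G q)) =
      fun q => ∑ y ∈ B, (starRingEnd ℂ) (a y) * (hE (k - y) (ξ - f y) (η - g y) (ζ - h y) q * G q) := by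
    funext q
    unfold hq
    rw [map_sum, Finset.sum_mul, Finset.mul_sum]
    refine Finset.sum_congr rfl fun y _ => ?_
    rw [map_mul, E_conj, sub_eq_add_neg, sub_eq_add_neg, sub_eq_add_neg, sub_eq_add_neg, ← E_mul]
    ring
  rw [e1, integral_finsetSum]
  · refine Finset.sum_eq_zero fun y hy => ?_
    rw [integral_const_mul, hC _ _ _ _ (hh y hy), mul_zero]
  · intro y _
    exact (BC_int hv hw hz (BC_mul (BC_E _ _ _ _) hG)).const_mul _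

theorem nsq (z : ℂ) : ((‖z‖ ^ 2 : ℝ) : ℂ) = z * (starRingEnd ℂ) z := by
  rw [Complex.mul_conj, Complex.normSq_eq_norm_sq]

/-- vanishing against all characters of large functional -/
def Van (v w z : ℝ → ℝ) (L : Fm) (R₂ R₃ α β : ℝ) (G : Vr → ℂ) (T : ℝ) : Prop :=
  BC G ∧ ∀ k ξ η ζ, T ≤ |Lam L R₂ R₃ α β k ξ η ζ| → ∫ q, hE k ξ η ζ q * G q ∂(mu3 v w z) = 0

theorem van_one {X₁ X₂ X₃ : ℝ} {v w z : ℝ → ℝ} (hv : IsWt X₁ v) (hw : IsWt X₂ w) (hz : IsWt X₃ z) {L : Fm} {R₂ R₃ α β T : ℝ}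
    (hX₁ : 0 < X₁) (hX₂ : 0 < X₂) (hX₃ : 0 < X₃) (hT : 1 / X₃ + |R₃| / X₂ + |R₂| / X₁ < T) : Van v w z L R₂ R₃ α β (fun _ => 1) T := by
  refine ⟨⟨continuous_const, 1, fun q => by rw [norm_one]⟩, ?_⟩
  intro k ξ η ζ h
  simp only [mul_one]
  refine hE_int hv hw hz k ξ η ζ ?_
  by_contra hcon
  push Not at hcon
  obtain ⟨h0, h1, h2, h3⟩ := hcon
  subst h0
  have e : Lam L R₂ R₃ α β 0 ξ η ζ = ζ + R₃ * η + R₂ * ξ := by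
    unfold Lam ul vl
    simp
  rw [e] at h
  have h4 : |ζ + R₃ * η + R₂ * ξ| ≤ |ζ| + |R₃| * |η| + |R₂| * |ξ| := by
    refine (abs_add_le _ _).trans (add_le_add ((abs_add_le _ _).trans (add_le_add le_rfl ?_)) ?_)
    · rw [abs_mul]
    · rw [abs_mul]
  have h5 : |R₃| * |η| ≤ |R₃| / X₂ := by
    calc |R₃| * |η| ≤ |R₃| * (1 / X₂) := mul_le_mul_of_nonneg_left h2.le (abs_nonneg _)
      _ = _ := by ring
  have h6 : |R₂| * |ξ| ≤ |R₂| / X₁ := by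
    calc |R₂| * |ξ| ≤ |R₂| * (1 / X₁) := mul_le_mul_of_nonneg_left h1.le (abs_nonneg _)
      _ = _ := by ring
  linarith

theorem van_step {X₁ X₂ X₃ : ℝ} {v w z : ℝ → ℝ} (hv : IsWt X₁ v) (hw : IsWt X₂ w) (hz : IsWt X₃ z) {L : Fm} {R₂ R₃ α β T b : ℝ}
    {G : Vr → ℂ} (hG : Van v w z L R₂ R₃ α β G T) (K : Finset (ℤ × ℤ)) (a : ℤ × ℤ → ℂ) (hu : ∀ y ∈ K, 0 < ul L y)
    (hb : ∀ y ∈ K, ∀ y' ∈ K, |ph4 L R₂ R₃ α β y - ph4 L R₂ R₃ α β y'| ≤ b) :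
    Van v w z L R₂ R₃ α β (fun q => ((‖hq K a (pw L 2) (pw L 3) (pw L 4) q‖ ^ 2 : ℝ) : ℂ) * G q) (T + b) := by
  obtain ⟨hG1, hG2⟩ := hG
  have hK := BC_hq K a (pw L 2) (pw L 3) (pw L 4)
  have e0 : (fun q => ((‖hq K a (pw L 2) (pw L 3) (pw L 4) q‖ ^ 2 : ℝ) : ℂ) * G q) =
      fun q => hq K a (pw L 2) (pw L 3) (pw L 4) q * ((starRingEnd ℂ) (hq K a (pw L 2) (pw L 3) (pw L 4) q) * G q) := by
    funext q
    rw [nsq]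
    ring
  rw [e0]
  refine ⟨BC_mul hK (BC_mul (BC_conj hK) hG1), ?_⟩
  intro k ξ η ζ h
  have h1 := fun k ξ η ζ hh => stepc hv hw hz hG1 hG2 K a (pw L 2) (pw L 3) (pw L 4) k ξ η ζ hh
  refine step hv hw hz (BC_mul (BC_conj hK) hG1) h1 K a (pw L 2) (pw L 3) (pw L 4) k ξ η ζ ?_
  intro y hy y' hy'
  rw [Lam_sub _ _ _ _ (hu y' hy'), Lam_add _ _ _ _ (hu y hy)]
  have h2 := hb y hy y' hy'
  have h3 := abs_sub_abs_le_abs_sub (Lam L R₂ R₃ α β k ξ η ζ) (-(ph4 L R₂ R₃ α β y - ph4 L R₂ R₃ α β y'))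
  rw [abs_neg, sub_neg_eq_add] at h3
  have e : Lam L R₂ R₃ α β k ξ η ζ + ph4 L R₂ R₃ α β y - ph4 L R₂ R₃ α β y' =
      Lam L R₂ R₃ α β k ξ η ζ + (ph4 L R₂ R₃ α β y - ph4 L R₂ R₃ α β y') := by ring
  rw [e]
  linarith

theorem van_pow {X₁ X₂ X₃ : ℝ} {v w z : ℝ → ℝ} (hv : IsWt X₁ v) (hw : IsWt X₂ w) (hz : IsWt X₃ z) {L : Fm} {R₂ R₃ α β T b : ℝ}
    {G : Vr → ℂ} (hG : Van v w z L R₂ R₃ α β G T) (K : Finset (ℤ × ℤ)) (a : ℤ × ℤ → ℂ) (hu : ∀ y ∈ K, 0 < ul L y)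
    (hb : ∀ y ∈ K, ∀ y' ∈ K, |ph4 L R₂ R₃ α β y - ph4 L R₂ R₃ α β y'| ≤ b) (n : ℕ) :
    Van v w z L R₂ R₃ α β (fun q => ((‖hq K a (pw L 2) (pw L 3) (pw L 4) q‖ ^ (2 * n) : ℝ) : ℂ) * G q) (T + n * b) := by
  induction n with
  | zero => simpa using hG
  | succ n ih =>
    have h1 := van_step hv hw hz ih K a hu hb
    have e : (fun q => ((‖hq K a (pw L 2) (pw L 3) (pw L 4) q‖ ^ (2 * (n + 1)) : ℝ) : ℂ) * G q) =
        fun q => ((‖hq K a (pw L 2) (pw L 3) (pw L 4) q‖ ^ 2 : ℝ) : ℂ) *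
          (((‖hq K a (pw L 2) (pw L 3) (pw L 4) q‖ ^ (2 * n) : ℝ) : ℂ) * G q) := by
      funext q
      rw [← mul_assoc, ← Complex.ofReal_mul, ← pow_add]
      congr 4
      ring
    rw [e]
    have e2 : T + ((n + 1 : ℕ) : ℝ) * b = T + n * b + b := by
      push_cast
      ring
    rw [e2]
    exact h1

/-- orthogonality against three groups -/
theorem orth_three {X₁ X₂ X₃ : ℝ} {v w z : ℝ → ℝ} (hv : IsWt X₁ v) (hw : IsWt X₂ w) (hz : IsWt X₃ z) {L : Fm} {R₂ R₃ α β T b₁ b₂ b₃ : ℝ}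
    (hX₁ : 0 < X₁) (hX₂ : 0 < X₂) (hX₃ : 0 < X₃) (hT : 1 / X₃ + |R₃| / X₂ + |R₂| / X₁ < T) {B B' K₁ K₂ K₃ : Finset (ℤ × ℤ)}
    (a : ℤ × ℤ → ℂ) (uB : ∀ y ∈ B, 0 < ul L y) (uB' : ∀ y ∈ B', 0 < ul L y) (u₁ : ∀ y ∈ K₁, 0 < ul L y) (u₂ : ∀ y ∈ K₂, 0 < ul L y)
    (u₃ : ∀ y ∈ K₃, 0 < ul L y)
    (h₁ : ∀ y ∈ K₁, ∀ y' ∈ K₁, |ph4 L R₂ R₃ α β y - ph4 L R₂ R₃ α β y'| ≤ b₁)
    (h₂ : ∀ y ∈ K₂, ∀ y' ∈ K₂, |ph4 L R₂ R₃ α β y - ph4 L R₂ R₃ α β y'| ≤ b₂)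
    (h₃ : ∀ y ∈ K₃, ∀ y' ∈ K₃, |ph4 L R₂ R₃ α β y - ph4 L R₂ R₃ α β y'| ≤ b₃) (n₁ n₂ n₃ : ℕ)
    (hx : ∀ x ∈ B, ∀ x' ∈ B', T + n₁ * b₁ + n₂ * b₂ + n₃ * b₃ ≤ |ph4 L R₂ R₃ α β x - ph4 L R₂ R₃ α β x'|) :
    ∫ q, hq B a (pw L 2) (pw L 3) (pw L 4) q * (starRingEnd ℂ) (hq B' a (pw L 2) (pw L 3) (pw L 4) q) *
      (((‖hq K₃ a (pw L 2) (pw L 3) (pw L 4) q‖ ^ (2 * n₃) : ℝ) : ℂ) * (((‖hq K₂ a (pw L 2) (pw L 3) (pw L 4) q‖ ^ (2 * n₂) : ℝ) : ℂ) *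
        ((‖hq K₁ a (pw L 2) (pw L 3) (pw L 4) q‖ ^ (2 * n₁) : ℝ) : ℂ))) ∂(mu3 v w z) = 0 := by
  have g0 := van_one hv hw hz (L := L) (R₂ := R₂) (R₃ := R₃) (α := α) (β := β) hX₁ hX₂ hX₃ hT
  have g1 := van_pow hv hw hz g0 K₁ a u₁ h₁ n₁
  have g2 := van_pow hv hw hz g1 K₂ a u₂ h₂ n₂
  obtain ⟨g3, g4⟩ := van_pow hv hw hz g2 K₃ a u₃ h₃ n₃
  have hB' := BC_conj (BC_hq B' a (pw L 2) (pw L 3) (pw L 4))
  have h1 := fun k ξ η ζ hh => stepc hv hw hz g3 g4 B' a (pw L 2) (pw L 3) (pw L 4) k ξ η ζ hh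
  have h2 := step hv hw hz (BC_mul hB' g3) h1 B a (pw L 2) (pw L 3) (pw L 4) 0 0 0 0 ?_
  · rw [← h2]
    congr 1
    funext q
    have hE0 : hE 0 0 0 0 q = 1 := by
      unfold hE dt
      simp [ee_zero]
    rw [hE0]
    ring
  · intro x hxB x' hxB'
    rw [Lam_sub _ _ _ _ (uB' x' hxB'), Lam_add _ _ _ _ (uB x hxB)]
    have e : Lam L R₂ R₃ α β 0 0 0 0 = 0 := by
      unfold Lam ul vl
      simp
    rw [e, zero_add]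
    exact hx x hxB x' hxB'

end Pool.Agent.Helper82.QG
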