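import Pool.Agent.Helper82.QG.A1
import Pool.Agent.Helper78.CG.B2

/-!
# QG-A2: the polynomial with three prescribed critical points; positions
-/

open MeasureTheory Real Set Filter Topology

set_option autoImplicit false

namespace Pool.Agent.Helper82.QG

open Pool.Agent.Helper22.AE
open Pool.Agent.Helper92.GC
open Pool.Agent.Helper22.AC (IsWt sep)
open Pool.Agent.Helper78.CG (seg_side)

/-- `P` with `P' = 4 (t - p) (t - q) (t - r)`, without the constant term -/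
noncomputable def P0 (p q r t : ℝ) : ℝ :=
  t ^ 4 + -(4 / 3 * (p + q + r)) * t ^ 3 + 2 * (p * q + p * r + q * r) * t ^ 2 + -(4 * (p * q * r)) * t

theorem P0_deriv (p q r t : ℝ) : HasDerivAt (P0 p q r) (4 * ((t - p) * (t - q) * (t - r))) t := by
  have h1 := (((hasDerivAt_pow 4 t).fun_add ((hasDerivAt_pow 3 t).const_mul (-(4 / 3 * (p + q + r))))).fun_add
    ((hasDerivAt_pow 2 t).const_mul (2 * (p * q + p * r + q * r)))).fun_add ((hasDerivAt_id' t).const_mul (-(4 * (p * q * r))))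
  refine h1.congr_deriv ?_
  norm_num
  ring

theorem P0_mvt (p q r s t : ℝ) : ∃ ξ ∈ uIcc s t, P0 p q r t - P0 p q r s = 4 * ((ξ - p) * (ξ - q) * (ξ - r)) * (t - s) := by
  have key : ∀ {a b : ℝ}, a < b → ∃ ξ ∈ Icc a b, P0 p q r b - P0 p q r a = 4 * ((ξ - p) * (ξ - q) * (ξ - r)) * (b - a) := by
    intro a b hab
    obtain ⟨s, hs, he⟩ := exists_hasDerivAt_eq_slope (P0 p q r) (fun t => 4 * ((t - p) * (t - q) * (t - r))) hab
      (fun x _ => (P0_deriv p q r x).continuousAt.continuousWithinAt) (fun x _ => P0_deriv p q r x)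
    refine ⟨s, Ioo_subset_Icc_self hs, ?_⟩
    have h2 : b - a ≠ 0 := by linarith
    have he' : 4 * ((s - p) * (s - q) * (s - r)) = (P0 p q r b - P0 p q r a) / (b - a) := he
    rw [he']
    field_simp
  rcases lt_trichotomy s t with h | h | h
  · rw [uIcc_of_le h.le]
    exact key h
  · subst h
    exact ⟨s, by simp, by ring⟩
  · rw [uIcc_of_ge h.le]
    obtain ⟨ξ, hs, he⟩ := key h
    exact ⟨ξ, hs, by linarith⟩

theorem uIcc_near {s t ξ : ℝ} (h : ξ ∈ uIcc s t) : |ξ - s| ≤ |t - s| := by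
  rw [mem_uIcc] at h
  rcases h with h | h
  · rw [abs_of_nonneg (by linarith [h.1]), abs_of_nonneg (by linarith [h.1, h.2])]
    linarith [h.2]
  · rw [abs_of_nonpos (by linarith [h.2]), abs_of_nonpos (by linarith [h.1, h.2])]
    linarith [h.1]

/-- the value near the first critical point -/
theorem P0_near (p q r t : ℝ) :
    |P0 p q r t - P0 p q r p| ≤ 4 * (|t - p| ^ 2 * ((|t - p| + |p - q|) * (|t - p| + |p - r|))) := by
  obtain ⟨ξ, h1, h2⟩ := P0_mvt p q r p t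
  have h3 := uIcc_near h1
  rw [h2, abs_mul, abs_mul, abs_mul, abs_mul, abs_of_pos (by norm_num : (0 : ℝ) < 4)]
  have h4 : |ξ - q| ≤ |t - p| + |p - q| := (abs_sub_le ξ p q).trans (add_le_add h3 le_rfl)
  have h5 : |ξ - r| ≤ |t - p| + |p - r| := (abs_sub_le ξ p r).trans (add_le_add h3 le_rfl)
  have h6 : |ξ - p| * |ξ - q| * |ξ - r| ≤ |t - p| * (|t - p| + |p - q|) * (|t - p| + |p - r|) :=
    mul_le_mul (mul_le_mul h3 h4 (abs_nonneg _) (abs_nonneg _)) h5 (abs_nonneg _) (by positivity)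
  calc 4 * (|ξ - p| * |ξ - q| * |ξ - r|) * |t - p| ≤ 4 * (|t - p| * (|t - p| + |p - q|) * (|t - p| + |p - r|)) * |t - p| :=
        mul_le_mul_of_nonneg_right (mul_le_mul_of_nonneg_left h6 (by norm_num)) (abs_nonneg _)
    _ = _ := by ring

theorem P0_swap12 (p q r t : ℝ) : P0 p q r t = P0 q p r t := by
  unfold P0
  ring

theorem P0_swap13 (p q r t : ℝ) : P0 p q r t = P0 r q p t := by
  unfold P0
  ring

/-- the difference of two values on one side of all critical points -/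
theorem P0_low {p q r x x' d₁ d₂ d₃ : ℝ} (h₁ : 0 ≤ d₁) (h₂ : 0 ≤ d₂) (h₃ : 0 ≤ d₃) (a₁ : d₁ ≤ |x - p|) (a₁' : d₁ ≤ |x' - p|)
    (a₂ : d₂ ≤ |x - q|) (a₂' : d₂ ≤ |x' - q|) (a₃ : d₃ ≤ |x - r|) (a₃' : d₃ ≤ |x' - r|) (s₁ : 0 < (x - p) * (x' - p))
    (s₂ : 0 < (x - q) * (x' - q)) (s₃ : 0 < (x - r) * (x' - r)) :
    4 * (d₁ * d₂ * d₃) * |x - x'| ≤ |P0 p q r x - P0 p q r x'| := by
  obtain ⟨ξ, h1, h2⟩ := P0_mvt p q r x' x
  rw [h2, abs_mul, abs_mul, abs_mul, abs_mul, abs_of_pos (by norm_num : (0 : ℝ) < 4)]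
  have b₁ : d₁ ≤ |ξ - p| := seg_side (by rw [mul_comm]; exact s₁) a₁' a₁ h1
  have b₂ : d₂ ≤ |ξ - q| := seg_side (by rw [mul_comm]; exact s₂) a₂' a₂ h1
  have b₃ : d₃ ≤ |ξ - r| := seg_side (by rw [mul_comm]; exact s₃) a₃' a₃ h1
  refine mul_le_mul_of_nonneg_right (mul_le_mul_of_nonneg_left ?_ (by norm_num)) (abs_nonneg _)
  exact mul_le_mul (mul_le_mul b₁ b₂ h₂ (abs_nonneg _)) b₃ h₃ (by positivity)

/-- index at level `s` of the position `x ∈ [0, 12)` -/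
noncomputable def ix (N M s : ℕ) (x : ℝ) : ℕ := ⌊((N * M ^ s : ℕ) : ℝ) * (x / 12)⌋₊

theorem ix_div {N M : ℕ} (s e : ℕ) (x : ℝ) (hM : 1 ≤ M) : ix N M (s + e) x / M ^ e = ix N M s x := by
  unfold ix
  have h : ((M ^ e : ℕ) : ℝ) ≠ 0 := by
    have : 0 < M ^ e := pow_pos hM e
    exact_mod_cast this.ne'
  rw [← Nat.floor_div_natCast]
  congr 1
  rw [pow_add, ← mul_assoc]
  push_cast at h ⊢
  field_simp

theorem ix_bd {N M s : ℕ} (hN : 1 ≤ N) (hM : 1 ≤ M) {x : ℝ} (hx : 0 ≤ x) :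
    (ix N M s x : ℝ) * (12 / (N * (M : ℝ) ^ s)) ≤ x ∧ x < ((ix N M s x : ℝ) + 1) * (12 / (N * (M : ℝ) ^ s)) := by
  have hN0 : (0 : ℝ) < N := by exact_mod_cast hN
  have hM0 : (0 : ℝ) < M := by exact_mod_cast hM
  have hK : (0 : ℝ) < N * (M : ℝ) ^ s := by positivity
  have h0 : 0 ≤ ((N * M ^ s : ℕ) : ℝ) * (x / 12) := by positivity
  have h1 := (Nat.floor_eq_iff h0).1 (rfl : ix N M s x = ix N M s x)
  push_cast at h1
  constructor
  · have h2 := h1.1
    rw [← mul_div_assoc, div_le_iff₀ hK]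
    have e : (ix N M s x : ℝ) ≤ N * (M : ℝ) ^ s * (x / 12) := by exact_mod_cast h2
    linarith
  · rw [← mul_div_assoc, lt_div_iff₀ hK]
    have e : (N : ℝ) * (M : ℝ) ^ s * (x / 12) < (ix N M s x : ℝ) + 1 := by exact_mod_cast h1.2
    linarith

theorem ix_same {N M s : ℕ} (hN : 1 ≤ N) (hM : 1 ≤ M) {x y : ℝ} (hx : 0 ≤ x) (hy : 0 ≤ y) (h : ix N M s x = ix N M s y) :
    |x - y| ≤ 12 / (N * (M : ℝ) ^ s) := by
  have h1 := ix_bd (s := s) hN hM hx
  have h2 := ix_bd (s := s) hN hM hy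
  rw [h] at h1
  rw [abs_le]
  constructor <;> linarith [h1.1, h1.2, h2.1, h2.2]

theorem ix_wpos {N M : ℕ} (s : ℕ) (hN : 1 ≤ N) (hM : 1 ≤ M) : (0 : ℝ) < 12 / (N * (M : ℝ) ^ s) := by
  have hN0 : (0 : ℝ) < N := by exact_mod_cast hN
  have hM0 : (0 : ℝ) < M := by exact_mod_cast hM
  positivity

theorem ix_sep {N M s : ℕ} (hN : 1 ≤ N) (hM : 1 ≤ M) {x y : ℝ} (hx : 0 ≤ x) (hy : 0 ≤ y) (h : sep (ix N M s x) (ix N M s y)) :
    12 / (N * (M : ℝ) ^ s) ≤ |x - y| := by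
  have h1 := ix_bd (s := s) hN hM hx
  have h2 := ix_bd (s := s) hN hM hy
  exact Pool.Agent.Helper78.CE.sep_gap h (ix_wpos s hN hM) h1.1 h1.2 h2.1 h2.2

theorem ix_side {N M s : ℕ} (hN : 1 ≤ N) (hM : 1 ≤ M) {x x' y : ℝ} (hx : 0 ≤ x) (hx' : 0 ≤ x') (hy : 0 ≤ y)
    (h : ix N M s x = ix N M s x') (hs : sep (ix N M s x) (ix N M s y)) : 0 < (x - y) * (x' - y) := by
  have h1 := ix_bd (s := s) hN hM hx
  have h1' := ix_bd (s := s) hN hM hx'
  have h2 := ix_bd (s := s) hN hM hy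
  rw [← h] at h1'
  have hw := ix_wpos (N := N) (M := M) s hN hM
  rcases hs with h3 | h3
  · have h7 : (ix N M s x : ℝ) + 2 ≤ ix N M s y := by exact_mod_cast h3
    have h8 := mul_le_mul_of_nonneg_right h7 hw.le
    exact mul_pos_of_neg_of_neg (by linarith [h1.2, h2.1]) (by linarith [h1'.2, h2.1])
  · have h7 : (ix N M s y : ℝ) + 2 ≤ ix N M s x := by exact_mod_cast h3
    have h8 := mul_le_mul_of_nonneg_right h7 hw.le
    exact mul_pos (by linarith [h1.1, h2.2]) (by linarith [h1'.1, h2.2])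

/-- the final real inequality: `W` is the size of the main term -/
theorem fin4 {H lam η T W U U' Px Px' Q o₁ o₂ o₃ K : ℝ} (hH : 0 < H) (hlam : 1 ≤ lam) (hη : 0 ≤ η)
    (hK : 29 * lam ^ 2 ≤ 4 * K) (hU : H / lam ≤ U) (hUU : |U - U'| ≤ η * H) (hlow : 4 * W ≤ |Px - Px'|) (hPx : |Px'| ≤ Q)
    (hW : 0 ≤ W) (h₁ : K * o₁ ≤ W) (h₂ : K * o₂ ≤ W) (h₃ : K * o₃ ≤ W) (hQ : K * (η * Q) ≤ W) (hT : K * T ≤ H * W) :
    T + (2 : ℕ) * (2 * (lam * H * o₁) + η * H * Q) + (3 : ℕ) * (2 * (lam * H * o₂) + η * H * Q) +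
      (4 : ℕ) * (2 * (lam * H * o₃) + η * H * Q) ≤ |U * Px - U' * Px'| := by
  have hlam0 : 0 < lam := by linarith
  have hK0 : 0 < K := by nlinarith
  have e : U * Px - U' * Px' = U * (Px - Px') - -((U - U') * Px') := by ring
  have h4 := abs_sub_abs_le_abs_sub (U * (Px - Px')) (-((U - U') * Px'))
  rw [← e, abs_neg, abs_mul, abs_mul] at h4
  have hU0 : 0 < U := lt_of_lt_of_le (by positivity) hU
  rw [abs_of_pos hU0] at h4
  have h5 : |U - U'| * |Px'| ≤ η * H * Q := mul_le_mul hUU hPx (abs_nonneg _) (by positivity)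
  have h6 : H / lam * (4 * W) ≤ U * |Px - Px'| := mul_le_mul hU hlow (by positivity) hU0.le
  -- everything divided by `H W / K`
  have h7 : K * (T + (2 : ℕ) * (2 * (lam * H * o₁) + η * H * Q) + (3 : ℕ) * (2 * (lam * H * o₂) + η * H * Q) +
      (4 : ℕ) * (2 * (lam * H * o₃) + η * H * Q) + η * H * Q) ≤ (29 * lam) * (H * W) := by
    push_cast
    have a1 := mul_le_mul_of_nonneg_left h₁ (by positivity : 0 ≤ lam * H)
    have a2 := mul_le_mul_of_nonneg_left h₂ (by positivity : 0 ≤ lam * H)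
    have a3 := mul_le_mul_of_nonneg_left h₃ (by positivity : 0 ≤ lam * H)
    have a4 := mul_le_mul_of_nonneg_left hQ hH.le
    have a5 : H * W ≤ lam * (H * W) := le_mul_of_one_le_left (by positivity) hlam
    nlinarith
  have h8 : K * (H / lam * (4 * W)) ≥ (29 * lam) * (H * W) := by
    have h9 : (29 * lam ^ 2) * (H * W / lam) ≤ (4 * K) * (H * W / lam) := mul_le_mul_of_nonneg_right hK (by positivity)
    calc (29 * lam) * (H * W) = (29 * lam ^ 2) * (H * W / lam) := by field_simp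
      _ ≤ (4 * K) * (H * W / lam) := h9
      _ = _ := by ring
  have h9 := le_of_mul_le_mul_left (h7.trans h8) hK0
  push_cast at h9 ⊢
  linarith

end Pool.Agent.Helper82.QG
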