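import Pool.Agent.Helper82.QG.A2

/-!
# QG-A3: the core: orthogonality for three groups with the polynomial `P0`
-/

open MeasureTheory Real Set Filter Topology

set_option autoImplicit false

namespace Pool.Agent.Helper82.QG

open Pool.Agent.Helper22.AE
open Pool.Agent.Helper92.GC
open Pool.Agent.Helper22.AC (IsWt sep)

theorem ph4_eq (L : Fm) (p q r : ℝ) (k : ℤ × ℤ) :
    ph4 L (2 * (p * q + p * r + q * r)) (-(4 / 3 * (p + q + r))) (-P0 p q r p) (-(4 * (p * q * r))) k =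
      ul L k * (P0 p q r (tl L k) - P0 p q r p) := by
  unfold ph4 P0
  ring

theorem near_le {p q r t ω : ℝ} (h : |t - p| ≤ ω) :
    |P0 p q r t - P0 p q r p| ≤ 4 * (ω ^ 2 * ((ω + |p - q|) * (ω + |p - r|))) := by
  refine (P0_near p q r t).trans ?_
  have h0 := abs_nonneg (t - p)
  have h1 := abs_nonneg (p - q)
  have h2 := abs_nonneg (p - r)
  have h3 := h0.trans h
  gcongr

theorem osc {u u' P P' c o η H lam Q : ℝ} (hH : 0 < H) (hlam : 1 ≤ lam) (hη : 0 ≤ η) (hu : 0 ≤ u) (hu' : 0 ≤ u') (h1 : u ≤ lam * H)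
    (h2 : u' ≤ lam * H) (h3 : |u - u'| ≤ η * H) (h4 : |P - c| ≤ o) (h5 : |P' - c| ≤ o) (h6 : |c| ≤ Q) :
    |u * P - u' * P'| ≤ 2 * (lam * H * o) + η * H * Q := by
  have e : u * P - u' * P' = u * (P - c) + -(u' * (P' - c)) + (u - u') * c := by ring
  rw [e]
  refine (abs_add_le _ _).trans (add_le_add ((abs_add_le _ _).trans ?_) ?_)
  · rw [abs_neg, abs_mul, abs_mul, abs_of_nonneg hu, abs_of_nonneg hu']
    have h7 : u * |P - c| ≤ lam * H * o := mul_le_mul h1 h4 (abs_nonneg _) (by positivity)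
    have h8 : u' * |P' - c| ≤ lam * H * o := mul_le_mul h2 h5 (abs_nonneg _) (by positivity)
    linarith
  · rw [abs_mul]
    exact mul_le_mul h3 h6 (abs_nonneg _) (by positivity)

theorem core4 {X₁ X₂ X₃ : ℝ} {v w z : ℝ → ℝ} (hv : IsWt X₁ v) (hw : IsWt X₂ w) (hz : IsWt X₃ z) {L : Fm} {H lam ρ η T K Δ W : ℝ}
    (hX₁ : 0 < X₁) (hX₂ : 0 < X₂) (hX₃ : 0 < X₃) (hH : 0 < H) (hlam : 1 ≤ lam) (hη : 0 ≤ η) (hK : 29 * lam ^ 2 ≤ 4 * K)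
    {S : Finset (ℤ × ℤ)} (hS : Rgl L H lam ρ S) (hslab : ∀ k ∈ S, ∀ k' ∈ S, |ul L k - ul L k'| ≤ η * H)
    {p q r ωp ωq ωr dp dq dr g o₁ o₂ o₃ : ℝ} {B B' K₁ K₂ K₃ : Finset (ℤ × ℤ)} (a : ℤ × ℤ → ℂ)
    (sB : B ⊆ S) (sB' : B' ⊆ S) (s₁ : K₁ ⊆ S) (s₂ : K₂ ⊆ S) (s₃ : K₃ ⊆ S)
    (h₁ : ∀ y ∈ K₁, |tl L y - p| ≤ ωp) (h₂ : ∀ y ∈ K₂, |tl L y - q| ≤ ωq) (h₃ : ∀ y ∈ K₃, |tl L y - r| ≤ ωr)
    (dp0 : 0 ≤ dp) (dq0 : 0 ≤ dq) (dr0 : 0 ≤ dr) (g0 : 0 ≤ g)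
    (hx : ∀ x ∈ B, ∀ x' ∈ B', (dp ≤ |tl L x - p| ∧ dq ≤ |tl L x - q| ∧ dr ≤ |tl L x - r|) ∧
      (dp ≤ |tl L x' - p| ∧ dq ≤ |tl L x' - q| ∧ dr ≤ |tl L x' - r|) ∧
      (0 < (tl L x - p) * (tl L x' - p) ∧ 0 < (tl L x - q) * (tl L x' - q) ∧ 0 < (tl L x - r) * (tl L x' - r)) ∧
      g ≤ |tl L x - tl L x'| ∧ |tl L x' - p| ≤ Δ)
    (hpq : |q - p| ≤ Δ) (hpr : |r - p| ≤ Δ) (hW : W = dp * dq * dr * g)
    (ho₁ : 4 * (ωp ^ 2 * ((ωp + |p - q|) * (ωp + |p - r|))) ≤ o₁)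
    (ho₂ : 4 * (ωq ^ 2 * ((ωq + |q - p|) * (ωq + |q - r|))) ≤ o₂)
    (ho₃ : 4 * (ωr ^ 2 * ((ωr + |r - q|) * (ωr + |r - p|))) ≤ o₃)
    (k₁ : K * o₁ ≤ W) (k₂ : K * o₂ ≤ W) (k₃ : K * o₃ ≤ W) (kQ : K * (η * (16 * Δ ^ 4)) ≤ W) (kT : K * T ≤ H * W)
    (hT : 1 / X₃ + |-(4 / 3 * (p + q + r))| / X₂ + |2 * (p * q + p * r + q * r)| / X₁ < T) :
    ∫ ω, hq B a (pw L 2) (pw L 3) (pw L 4) ω * (starRingEnd ℂ) (hq B' a (pw L 2) (pw L 3) (pw L 4) ω) *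
      (((‖hq K₃ a (pw L 2) (pw L 3) (pw L 4) ω‖ ^ (2 * 4) : ℝ) : ℂ) * (((‖hq K₂ a (pw L 2) (pw L 3) (pw L 4) ω‖ ^ (2 * 3) : ℝ) : ℂ) *
        ((‖hq K₁ a (pw L 2) (pw L 3) (pw L 4) ω‖ ^ (2 * 2) : ℝ) : ℂ))) ∂(mu3 v w z) = 0 := by
  have hu : ∀ {y : ℤ × ℤ}, y ∈ S → 0 < ul L y ∧ ul L y ≤ lam * H ∧ H / lam ≤ ul L y := by
    intro y hy
    obtain ⟨a1, a2, -⟩ := hS y hy
    exact ⟨lt_of_lt_of_le (by positivity) a1, a2, a1⟩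
  have hQ : ∀ t : ℝ, |t - p| ≤ Δ → |P0 p q r t - P0 p q r p| ≤ 16 * Δ ^ 4 := by
    intro t ht
    have hΔ : 0 ≤ Δ := (abs_nonneg _).trans ht
    refine (near_le ht).trans ?_
    rw [abs_sub_comm] at hpq hpr
    calc 4 * (Δ ^ 2 * ((Δ + |p - q|) * (Δ + |p - r|))) ≤ 4 * (Δ ^ 2 * ((Δ + Δ) * (Δ + Δ))) := by gcongr
      _ = _ := by ring
  have hQp : |P0 p q r p - P0 p q r p| ≤ 16 * Δ ^ 4 := by
    rw [sub_self, abs_zero]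
    have hΔ : 0 ≤ Δ := (abs_nonneg _).trans hpq
    positivity
  have grp : ∀ {c ω o : ℝ} {G : Finset (ℤ × ℤ)}, G ⊆ S → |P0 p q r c - P0 p q r p| ≤ 16 * Δ ^ 4 →
      (∀ y ∈ G, |P0 p q r (tl L y) - P0 p q r c| ≤ o) → ∀ y ∈ G, ∀ y' ∈ G,
      |ph4 L (2 * (p * q + p * r + q * r)) (-(4 / 3 * (p + q + r))) (-P0 p q r p) (-(4 * (p * q * r))) y -
        ph4 L (2 * (p * q + p * r + q * r)) (-(4 / 3 * (p + q + r))) (-P0 p q r p) (-(4 * (p * q * r))) y'| ≤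
        2 * (lam * H * o) + η * H * (16 * Δ ^ 4) := by
    intro c ω o G hG hc ho y hy y' hy'
    rw [ph4_eq, ph4_eq]
    obtain ⟨b1, b2, -⟩ := hu (hG hy)
    obtain ⟨b1', b2', -⟩ := hu (hG hy')
    refine osc (c := P0 p q r c - P0 p q r p) hH hlam hη b1.le b1'.le b2 b2' (hslab y (hG hy) y' (hG hy')) ?_ ?_ hc
    · have e : P0 p q r (tl L y) - P0 p q r p - (P0 p q r c - P0 p q r p) = P0 p q r (tl L y) - P0 p q r c := by ring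
      rw [e]
      exact ho y hy
    · have e : P0 p q r (tl L y') - P0 p q r p - (P0 p q r c - P0 p q r p) = P0 p q r (tl L y') - P0 p q r c := by ring
      rw [e]
      exact ho y' hy'
  refine orth_three hv hw hz (L := L) (R₂ := 2 * (p * q + p * r + q * r)) (R₃ := -(4 / 3 * (p + q + r))) (α := -P0 p q r p)
    (β := -(4 * (p * q * r))) (b₁ := 2 * (lam * H * o₁) + η * H * (16 * Δ ^ 4)) (b₂ := 2 * (lam * H * o₂) + η * H * (16 * Δ ^ 4))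
    (b₃ := 2 * (lam * H * o₃) + η * H * (16 * Δ ^ 4)) hX₁ hX₂ hX₃ hT a (fun y hy => (hu (sB hy)).1) (fun y hy => (hu (sB' hy)).1)
    (fun y hy => (hu (s₁ hy)).1) (fun y hy => (hu (s₂ hy)).1) (fun y hy => (hu (s₃ hy)).1) ?_ ?_ ?_ 2 3 4 ?_
  · refine grp (ω := ωp) (c := p) s₁ hQp fun y hy => ?_
    exact (near_le (h₁ y hy)).trans ho₁
  · refine grp (ω := ωq) (c := q) s₂ (hQ q hpq) fun y hy => ?_
    rw [P0_swap12 p q r, P0_swap12 p q r]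
    exact (near_le (h₂ y hy)).trans ho₂
  · refine grp (ω := ωr) (c := r) s₃ (hQ r hpr) fun y hy => ?_
    rw [P0_swap13 p q r, P0_swap13 p q r]
    exact (near_le (h₃ y hy)).trans ho₃
  · intro x hxB x' hxB'
    obtain ⟨⟨c1, c2, c3⟩, ⟨c1', c2', c3'⟩, ⟨s1, s2, s3⟩, c4, c5⟩ := hx x hxB x' hxB'
    rw [ph4_eq, ph4_eq]
    obtain ⟨b1, b2, b3⟩ := hu (sB hxB)
    have hW0 : 0 ≤ W := by rw [hW]; positivity
    refine fin4 hH hlam hη hK b3 (hslab x (sB hxB) x' (sB' hxB')) (W := W) ?_ (hQ _ c5) hW0 k₁ k₂ k₃ kQ kT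
    have e : P0 p q r (tl L x) - P0 p q r p - (P0 p q r (tl L x') - P0 p q r p) = P0 p q r (tl L x) - P0 p q r (tl L x') := by ring
    rw [e]
    have h7 := P0_low dp0 dq0 dr0 c1 c1' c2 c2' c3 c3' s1 s2 s3
    refine le_trans ?_ h7
    rw [hW]
    calc 4 * (dp * dq * dr * g) = 4 * (dp * dq * dr) * g := by ring
      _ ≤ _ := mul_le_mul_of_nonneg_left c4 (by positivity)

end Pool.Agent.Helper82.QG
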