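import Pool.Agent.Helper82.QG.A3

/-!
# QG-A4: contexts, widths, positions, the four real lemmas
-/

open MeasureTheory Real Set Filter Topology

set_option autoImplicit false

namespace Pool.Agent.Helper82.QG

open Pool.Agent.Helper22.AE
open Pool.Agent.Helper92.GC
open Pool.Agent.Helper22.AC (IsWt sep)

/-- width of the arcs of level `s` -/
noncomputable def wd (N M s : ℕ) : ℝ := 12 / (N * (M : ℝ) ^ s)

theorem wd_pos {N M : ℕ} (s : ℕ) (hN : 1 ≤ N) (hM : 1 ≤ M) : 0 < wd N M s := ix_wpos s hN hM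

theorem wd_add {N M : ℕ} (s e : ℕ) (hM : 1 ≤ M) : wd N M (s + e) = wd N M s * (1 / (M : ℝ)) ^ e := by
  have hM0 : (0 : ℝ) < M := by exact_mod_cast hM
  unfold wd
  rw [pow_add, one_div, inv_pow]
  rcases Nat.eq_zero_or_pos N with h | h
  · subst h
    simp
  · have hN0 : (0 : ℝ) < N := by exact_mod_cast h
    field_simp

/-- the setting of the geometric lemmas -/
structure Ctx (X₁ X₂ X₃ : ℝ) (v w z : ℝ → ℝ) (L : Fm) (o H lam ρ η : ℝ) (N M m : ℕ) (S : Finset (ℤ × ℤ)) : Prop where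
  hv : IsWt X₁ v
  hw : IsWt X₂ w
  hz : IsWt X₃ z
  hX₁ : 0 < X₁
  hX₂ : 0 < X₂
  hX₃ : 0 < X₃
  hH : 0 < H
  hlam : 1 ≤ lam
  pos : ∀ k ∈ S, 0 ≤ tl L k + o
  hη : 0 ≤ η
  hN : 1 ≤ N
  hM : 800 * lam ^ 2 ≤ (M : ℝ)
  hS : Rgl L H lam ρ S
  slab : ∀ k ∈ S, ∀ k' ∈ S, |ul L k - ul L k'| ≤ η * H
  thin : η ≤ (1 / (M : ℝ)) ^ (4 * m + 8)
  large : 1 / X₃ + 4 * ρ / X₂ + 6 * ρ ^ 2 / X₁ < H * wd N M m ^ 4

section
variable {X₁ X₂ X₃ : ℝ} {v w z : ℝ → ℝ} {L : Fm} {o H lam ρ η : ℝ} {N M m : ℕ} {S : Finset (ℤ × ℤ)}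

theorem Ctx.M1 (h : Ctx X₁ X₂ X₃ v w z L o H lam ρ η N M m S) : 1 ≤ M := by
  have h1 : (1 : ℝ) ≤ M := by
    have := h.hM
    have h2 : 1 ≤ lam ^ 2 := one_le_pow₀ h.hlam
    linarith
  exact_mod_cast h1

theorem Ctx.Kr (h : Ctx X₁ X₂ X₃ v w z L o H lam ρ η N M m S) : 96 * (8 * lam ^ 2) * (1 / (M : ℝ)) ≤ 1 := by
  have h1 : (0 : ℝ) < M := by exact_mod_cast h.M1
  rw [mul_one_div, div_le_one h1]
  have := h.hM
  have h2 : 1 ≤ lam ^ 2 := one_le_pow₀ h.hlam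
  linarith

theorem Ctx.bd (h : Ctx X₁ X₂ X₃ v w z L o H lam ρ η N M m S) {x : ℤ × ℤ} (hx : x ∈ S) : |tl L x| ≤ ρ := (h.hS x hx).2.2

theorem Ctx.nn (h : Ctx X₁ X₂ X₃ v w z L o H lam ρ η N M m S) {x : ℤ × ℤ} (hx : x ∈ S) : 0 ≤ tl L x + o := by
  exact h.pos x hx

theorem Ctx.same (h : Ctx X₁ X₂ X₃ v w z L o H lam ρ η N M m S) {s : ℕ} {x y : ℤ × ℤ} (hx : x ∈ S) (hy : y ∈ S)
    (e : ix N M s (tl L x + o) = ix N M s (tl L y + o)) : |tl L x - tl L y| ≤ wd N M s := by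
  have h1 := ix_same h.hN h.M1 (h.nn hx) (h.nn hy) e
  have e1 : tl L x + o - (tl L y + o) = tl L x - tl L y := by ring
  rwa [e1] at h1

theorem Ctx.far (h : Ctx X₁ X₂ X₃ v w z L o H lam ρ η N M m S) {s : ℕ} {x y : ℤ × ℤ} (hx : x ∈ S) (hy : y ∈ S)
    (e : sep (ix N M s (tl L x + o)) (ix N M s (tl L y + o))) : wd N M s ≤ |tl L x - tl L y| := by
  have h1 := ix_sep h.hN h.M1 (h.nn hx) (h.nn hy) e
  have e1 : tl L x + o - (tl L y + o) = tl L x - tl L y := by ring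
  rwa [e1] at h1

theorem Ctx.side (h : Ctx X₁ X₂ X₃ v w z L o H lam ρ η N M m S) {s : ℕ} {x x' y : ℤ × ℤ} (hx : x ∈ S) (hx' : x' ∈ S) (hy : y ∈ S)
    (e : ix N M s (tl L x + o) = ix N M s (tl L x' + o)) (e' : sep (ix N M s (tl L x + o)) (ix N M s (tl L y + o))) :
    0 < (tl L x - tl L y) * (tl L x' - tl L y) := by
  have h1 := ix_side h.hN h.M1 (h.nn hx) (h.nn hx') (h.nn hy) e e'
  have e1 : tl L x + o - (tl L y + o) = tl L x - tl L y := by ring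
  have e2 : tl L x' + o - (tl L y + o) = tl L x' - tl L y := by ring
  rwa [e1, e2] at h1

/-- the size of the coefficients of the functional -/
theorem Ctx.coef (h : Ctx X₁ X₂ X₃ v w z L o H lam ρ η N M m S) {p q r : ℝ} (hp : |p| ≤ ρ) (hq : |q| ≤ ρ) (hr : |r| ≤ ρ) :
    1 / X₃ + |-(4 / 3 * (p + q + r))| / X₂ + |2 * (p * q + p * r + q * r)| / X₁ < H * wd N M m ^ 4 := by
  have hρ0 : 0 ≤ ρ := (abs_nonneg p).trans hp
  have h1 : |-(4 / 3 * (p + q + r))| ≤ 4 * ρ := by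
    rw [abs_neg, abs_mul, abs_of_pos (by norm_num : (0 : ℝ) < 4 / 3)]
    have h2 := abs_add_le (p + q) r
    have h3 := abs_add_le p q
    linarith
  have h2 : |2 * (p * q + p * r + q * r)| ≤ 6 * ρ ^ 2 := by
    rw [abs_mul, abs_of_pos (by norm_num : (0 : ℝ) < 2)]
    have h3 := abs_add_le (p * q + p * r) (q * r)
    have h4 := abs_add_le (p * q) (p * r)
    have m1 : |p * q| ≤ ρ * ρ := by rw [abs_mul]; exact mul_le_mul hp hq (abs_nonneg _) hρ0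
    have m2 : |p * r| ≤ ρ * ρ := by rw [abs_mul]; exact mul_le_mul hp hr (abs_nonneg _) hρ0
    have m3 : |q * r| ≤ ρ * ρ := by rw [abs_mul]; exact mul_le_mul hq hr (abs_nonneg _) hρ0
    nlinarith
  refine lt_of_le_of_lt ?_ h.large
  have := h.hX₁
  have := h.hX₂
  gcongr

end

/-- powers of `r = 1 / M` -/
theorem gain {r c : ℝ} (hr : 0 < r) (hr1 : r ≤ 1) (hc : c * r ≤ 1) (hc0 : 0 ≤ c) {e e' : ℕ} (h : e + 1 ≤ e') : c * r ^ e' ≤ r ^ e := by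
  calc c * r ^ e' ≤ c * r ^ (e + 1) := mul_le_mul_of_nonneg_left (pow_le_pow_of_le_one hr.le hr1 h) hc0
    _ = (c * r) * r ^ e := by ring
    _ ≤ 1 * r ^ e := mul_le_mul_of_nonneg_right hc (by positivity)
    _ = r ^ e := one_mul _

/-- the first type of error: `ω² ≤ d g / (c K)` -/
theorem real_a {r U K c P : ℝ} (hr : 0 < r) (hr1 : r ≤ 1) (hK : c * K * r ≤ 1) (hc : 0 ≤ c * K) (hU : 0 ≤ U) (hP : 0 ≤ P) {e e' : ℕ}
    (h : e + 1 ≤ e') : K * (c * (U * r ^ e' * P)) ≤ U * r ^ e * P := by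
  have h1 := gain hr hr1 hK hc h
  calc K * (c * (U * r ^ e' * P)) = (c * K * r ^ e') * (U * P) := by ring
    _ ≤ r ^ e * (U * P) := mul_le_mul_of_nonneg_right h1 (by positivity)
    _ = _ := by ring

end Pool.Agent.Helper82.QG
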