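import Pool.Agent.Helper82.QG.A4

/-!
# QG-A5: the first two cases of the geometry
-/

open MeasureTheory Real Set Filter Topology

set_option autoImplicit false

namespace Pool.Agent.Helper82.QG

open Pool.Agent.Helper22.AE
open Pool.Agent.Helper92.GC
open Pool.Agent.Helper22.AC (IsWt sep)

/-- `gain` in the form used below -/
theorem gain' {r K c Q : ℝ} (hr : 0 < r) (hr1 : r ≤ 1) (hK : 96 * K * r ≤ 1) (hK0 : 0 ≤ K) (hc : 0 ≤ c) (hc1 : c ≤ 96) (hQ : 0 ≤ Q)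
    {e e' : ℕ} (h : e + 1 ≤ e') : K * (c * (Q * r ^ e')) ≤ Q * r ^ e := by
  have h2 : c * K * r ≤ 1 := by
    refine le_trans ?_ hK
    exact mul_le_mul_of_nonneg_right (mul_le_mul_of_nonneg_right hc1 hK0) hr.le
  have h1 := gain hr hr1 h2 (by positivity) h
  calc K * (c * (Q * r ^ e')) = Q * (c * K * r ^ e') := by ring
    _ ≤ Q * r ^ e := mul_le_mul_of_nonneg_left h1 hQ

theorem half_far {x y w U : ℝ} (h1 : |x - y| ≤ U) (h2 : U ≤ |x - w|) : |y - w| / 2 ≤ |x - w| := by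
  have h3 := abs_sub_le y x w
  rw [abs_sub_comm y x] at h3
  linarith

/-- the product of the three groups -/
noncomputable def tri (L : Fm) (a : ℤ × ℤ → ℂ) (B B' K₁ K₂ K₃ : Finset (ℤ × ℤ)) (ω : Vr) : ℂ :=
  hq B a (pw L 2) (pw L 3) (pw L 4) ω * (starRingEnd ℂ) (hq B' a (pw L 2) (pw L 3) (pw L 4) ω) *
      (((‖hq K₃ a (pw L 2) (pw L 3) (pw L 4) ω‖ ^ (2 * 4) : ℝ) : ℂ) * (((‖hq K₂ a (pw L 2) (pw L 3) (pw L 4) ω‖ ^ (2 * 3) : ℝ) : ℂ) *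
        ((‖hq K₁ a (pw L 2) (pw L 3) (pw L 4) ω‖ ^ (2 * 2) : ℝ) : ℂ)))

theorem tri_empty {L : Fm} {a : ℤ × ℤ → ℂ} {B B' K₁ K₂ K₃ : Finset (ℤ × ℤ)} (μ : Measure Vr) (h : K₁ = ∅ ∨ K₂ = ∅ ∨ K₃ = ∅) :
    ∫ ω, tri L a B B' K₁ K₂ K₃ ω ∂μ = 0 := by
  have e : (fun ω => tri L a B B' K₁ K₂ K₃ ω) = fun _ => 0 := by
    funext ω
    have h0 : hq ∅ a (pw L 2) (pw L 3) (pw L 4) ω = 0 := by
      unfold hq
      simp
    unfold tri
    rcases h with h | h | h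
    · subst h
      rw [h0]
      simp
    · subst h
      rw [h0]
      simp
    · subst h
      rw [h0]
      simp
  rw [e, integral_zero]

section
variable {X₁ X₂ X₃ : ℝ} {v w z : ℝ → ℝ} {L : Fm} {o H lam ρ η : ℝ} {N M m : ℕ} {S : Finset (ℤ × ℤ)}

theorem Ctx.lev (h : Ctx X₁ X₂ X₃ v w z L o H lam ρ η N M m S) {t s e n : ℕ} {x : ℤ × ℤ} (hx : ix N M t (tl L x + o) = n) (ht : t = s + e) :
    ix N M s (tl L x + o) = n / M ^ e := by
  subst ht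
  rw [← ix_div s e _ h.M1, hx]

/-- all three groups in one arc -/
theorem caseA (h : Ctx X₁ X₂ X₃ v w z L o H lam ρ η N M m S) {b c n n' nJ : ℕ} (h1 : c + 1 ≤ 4 * b) (h2 : 1 + b ≤ m) (h3 : 1 + c ≤ m)
    {B B' J : Finset (ℤ × ℤ)} (a : ℤ × ℤ → ℂ) (hB : ∀ x ∈ B, x ∈ S ∧ ix N M (1 + c) (tl L x + o) = n)
    (hB' : ∀ x ∈ B', x ∈ S ∧ ix N M (1 + c) (tl L x + o) = n') (hJ : ∀ x ∈ J, x ∈ S ∧ ix N M (1 + b) (tl L x + o) = nJ)
    (R1 : nJ / M ^ (b + 1) = n / M ^ (c + 1)) (R2 : n / M ^ c = n' / M ^ c) (R3 : sep (n / M ^ c) (nJ / M ^ b)) (R4 : sep n n') :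
    ∫ ω, tri L a B B' J J J ω ∂(mu3 v w z) = 0 := by
  have hM1 := h.M1
  have hM0 : (0 : ℝ) < M := by exact_mod_cast hM1
  rcases Finset.eq_empty_or_nonempty J with hJe | ⟨y, hy⟩
  · exact tri_empty _ (Or.inl hJe)
  obtain ⟨r, hr⟩ : ∃ r : ℝ, r = 1 / (M : ℝ) := ⟨_, rfl⟩
  have hr0 : 0 < r := by rw [hr]; positivity
  have hr1 : r ≤ 1 := by
    rw [hr, div_le_one hM0]
    exact_mod_cast hM1
  obtain ⟨Δ, hΔ⟩ : ∃ Δ : ℝ, Δ = wd N M 0 := ⟨_, rfl⟩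
  have hΔ0 : 0 < Δ := by rw [hΔ]; exact wd_pos 0 h.hN hM1
  have hwd : ∀ s : ℕ, wd N M s = Δ * r ^ s := by
    intro s
    rw [hΔ, hr, ← wd_add 0 s hM1, zero_add]
  obtain ⟨K, hK⟩ : ∃ K : ℝ, K = 8 * lam ^ 2 := ⟨_, rfl⟩
  have hK0 : 0 ≤ K := by rw [hK]; positivity
  have hKr : 96 * K * r ≤ 1 := by rw [hK, hr]; exact h.Kr
  obtain ⟨yS, yi⟩ := hJ y hy
  have hw1 : wd N M (1 + b) = Δ * r ^ (1 + b) := hwd _
  refine core4 h.hv h.hw h.hz (L := L) (H := H) (lam := lam) (ρ := ρ) (η := η) (T := H * wd N M m ^ 4) (K := K) (Δ := Δ)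
    (W := Δ ^ 4 * r ^ (4 + c)) h.hX₁ h.hX₂ h.hX₃ h.hH h.hlam h.hη (by rw [hK]; nlinarith [sq_nonneg lam]) h.hS h.slab
    (p := tl L y) (q := tl L y) (r := tl L y) (ωp := wd N M (1 + b)) (ωq := wd N M (1 + b)) (ωr := wd N M (1 + b))
    (dp := wd N M 1) (dq := wd N M 1) (dr := wd N M 1) (g := wd N M (1 + c)) (o₁ := 4 * (Δ ^ 4 * r ^ (4 * (1 + b))))
    (o₂ := 4 * (Δ ^ 4 * r ^ (4 * (1 + b)))) (o₃ := 4 * (Δ ^ 4 * r ^ (4 * (1 + b)))) a (fun x hx => (hB x hx).1)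
    (fun x hx => (hB' x hx).1) (fun x hx => (hJ x hx).1) (fun x hx => (hJ x hx).1) (fun x hx => (hJ x hx).1) ?_ ?_ ?_
    (wd_pos _ h.hN hM1).le (wd_pos _ h.hN hM1).le (wd_pos _ h.hN hM1).le (wd_pos _ h.hN hM1).le ?_ ?_ ?_ ?_ ?_ ?_ ?_ ?_ ?_ ?_ ?_ ?_
    (h.coef (h.bd yS) (h.bd yS) (h.bd yS))
  · exact fun x hx => h.same (hJ x hx).1 yS ((hJ x hx).2.trans yi.symm)
  · exact fun x hx => h.same (hJ x hx).1 yS ((hJ x hx).2.trans yi.symm)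
  · exact fun x hx => h.same (hJ x hx).1 yS ((hJ x hx).2.trans yi.symm)
  · intro x hx x' hx'
    obtain ⟨xS, xi⟩ := hB x hx
    obtain ⟨xS', xi'⟩ := hB' x' hx'
    have l1 := h.lev (s := 1) (e := c) xi rfl
    have l1' := h.lev (s := 1) (e := c) xi' rfl
    have l1y := h.lev (s := 1) (e := b) yi rfl
    have l0' := h.lev (s := 0) (e := c + 1) xi' (by ring)
    have l0y := h.lev (s := 0) (e := b + 1) yi (by ring)
    have f1 := h.far (s := 1) xS yS (by rw [l1, l1y]; exact R3)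
    have f2 := h.far (s := 1) xS' yS (by rw [l1', l1y, ← R2]; exact R3)
    have f3 := h.side (s := 1) xS xS' yS (by rw [l1, l1', R2]) (by rw [l1, l1y]; exact R3)
    have f4 := h.far (s := 1 + c) xS xS' (by rw [xi, xi']; exact R4)
    have f5 := h.same (s := 0) xS' yS (by
      rw [l0', l0y, R1, pow_succ, ← Nat.div_div_eq_div_mul, ← Nat.div_div_eq_div_mul, R2])
    refine ⟨⟨f1, f1, f1⟩, ⟨f2, f2, f2⟩, ⟨f3, f3, f3⟩, f4, ?_⟩
    rw [hΔ]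
    exact f5
  · rw [sub_self, abs_zero]; exact hΔ0.le
  · rw [sub_self, abs_zero]; exact hΔ0.le
  · rw [hwd, hwd]; ring
  · rw [sub_self, abs_zero, hw1]; refine le_of_eq ?_; ring
  · rw [sub_self, abs_zero, hw1]; refine le_of_eq ?_; ring
  · rw [sub_self, abs_zero, hw1]; refine le_of_eq ?_; ring
  · exact gain' hr0 hr1 hKr hK0 (by norm_num) (by norm_num) (by positivity) (by omega)
  · exact gain' hr0 hr1 hKr hK0 (by norm_num) (by norm_num) (by positivity) (by omega)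
  · exact gain' hr0 hr1 hKr hK0 (by norm_num) (by norm_num) (by positivity) (by omega)
  · have h5 := gain' (e := 4 + c) (e' := 4 * m + 8) (c := 16) (Q := Δ ^ 4) hr0 hr1 hKr hK0 (by norm_num) (by norm_num) (by positivity) (by omega)
    refine le_trans ?_ h5
    refine mul_le_mul_of_nonneg_left ?_ hK0
    have h6 := h.thin
    rw [← hr] at h6
    calc η * (16 * Δ ^ 4) ≤ r ^ (4 * m + 8) * (16 * Δ ^ 4) := mul_le_mul_of_nonneg_right h6 (by positivity)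
      _ = _ := by ring
  · have h5 := gain' (e := 4 + c) (e' := 4 * m) (c := 1) (Q := Δ ^ 4) hr0 hr1 hKr hK0 (by norm_num) (by norm_num) (by positivity) (by omega)
    rw [hwd]
    calc K * (H * (Δ * r ^ m) ^ 4) = H * (K * (1 * (Δ ^ 4 * r ^ (4 * m)))) := by ring
      _ ≤ H * (Δ ^ 4 * r ^ (4 + c)) := mul_le_mul_of_nonneg_left h5 h.hH.le

/-- two groups in `J` -/
theorem caseB (h : Ctx X₁ X₂ X₃ v w z L o H lam ρ η N M m S) {b₀ D a b c n n' nk nJ : ℕ} (h1 : 2 * D ≤ 3 * b₀) (h2 : 1 + b₀ ≤ m)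
    (h3 : c + 1 ≤ 2 * b) (h4 : a + 1 + b ≤ D) (h5 : a + 1 + c ≤ D)
    {B B' G J : Finset (ℤ × ℤ)} (av : ℤ × ℤ → ℂ) (hB : ∀ x ∈ B, x ∈ S ∧ ix N M (1 + (a + 1 + c)) (tl L x + o) = n)
    (hB' : ∀ x ∈ B', x ∈ S ∧ ix N M (1 + (a + 1 + c)) (tl L x + o) = n')
    (hG : ∀ x ∈ G, x ∈ S ∧ ix N M (1 + (a + 1 + b)) (tl L x + o) = nk) (hJ : ∀ x ∈ J, x ∈ S ∧ ix N M (1 + b₀) (tl L x + o) = nJ)
    (R1 : nk / M ^ (b + 1) = n / M ^ (c + 1)) (R2 : n / M ^ c = n' / M ^ c) (R3 : sep (n / M ^ c) (nk / M ^ b)) (R4 : sep n n')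
    (R5 : sep (n / M ^ (a + 1 + c)) (nJ / M ^ b₀)) (R6 : n / M ^ (a + 1 + c) / M = nJ / M ^ (b₀ + 1)) :
    ∫ ω, tri L av B B' G J J ω ∂(mu3 v w z) = 0 := by
  have hM1 := h.M1
  have hM0 : (0 : ℝ) < M := by exact_mod_cast hM1
  rcases Finset.eq_empty_or_nonempty G with hGe | ⟨y, hy⟩
  · exact tri_empty _ (Or.inl hGe)
  rcases Finset.eq_empty_or_nonempty J with hJe | ⟨x₀, hx₀⟩
  · exact tri_empty _ (Or.inr (Or.inl hJe))
  have hc1 : 1 ≤ c := by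
    rcases Nat.eq_zero_or_pos c with h0 | h0
    · subst h0
      rw [pow_zero, Nat.div_one, Nat.div_one] at R2
      subst R2
      unfold Pool.Agent.Helper22.AC.sep at R4
      omega
    · exact h0
  obtain ⟨r, hr⟩ : ∃ r : ℝ, r = 1 / (M : ℝ) := ⟨_, rfl⟩
  have hr0 : 0 < r := by rw [hr]; positivity
  have hr1 : r ≤ 1 := by
    rw [hr, div_le_one hM0]
    exact_mod_cast hM1
  obtain ⟨Δ, hΔ⟩ : ∃ Δ : ℝ, Δ = wd N M 0 := ⟨_, rfl⟩
  have hΔ0 : 0 < Δ := by rw [hΔ]; exact wd_pos 0 h.hN hM1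
  have hwd : ∀ s : ℕ, wd N M s = Δ * r ^ s := by
    intro s
    rw [hΔ, hr, ← wd_add 0 s hM1, zero_add]
  have hmono : ∀ {s t : ℕ}, s ≤ t → wd N M t ≤ wd N M s := by
    intro s t hst
    rw [hwd, hwd]
    exact mul_le_mul_of_nonneg_left (pow_le_pow_of_le_one hr0.le hr1 hst) hΔ0.le
  obtain ⟨K, hK⟩ : ∃ K : ℝ, K = 8 * lam ^ 2 := ⟨_, rfl⟩
  have hK0 : 0 ≤ K := by rw [hK]; positivity
  have hKr : 96 * K * r ≤ 1 := by rw [hK, hr]; exact h.Kr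
  obtain ⟨yS, yi⟩ := hG y hy
  obtain ⟨wS, wi⟩ := hJ x₀ hx₀
  -- the levels of `y` and `x₀`
  have hyx : nk / M ^ (a + 1 + b) = n / M ^ (a + 1 + c) := by
    have e1 : M ^ (a + 1 + b) = M ^ (b + 1) * M ^ a := by rw [← pow_add]; congr 1; ring
    have e2 : M ^ (a + 1 + c) = M ^ (c + 1) * M ^ a := by rw [← pow_add]; congr 1; ring
    rw [e1, e2, ← Nat.div_div_eq_div_mul, ← Nat.div_div_eq_div_mul, R1]
  have y1 := h.lev (s := 1) (e := a + 1 + b) yi rfl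
  have w1 := h.lev (s := 1) (e := b₀) wi rfl
  have y0 := h.lev (s := 0) (e := a + 1 + b + 1) yi (by ring)
  have w0 := h.lev (s := 0) (e := b₀ + 1) wi (by ring)
  obtain ⟨l, hl⟩ : ∃ l, l = |tl L y - tl L x₀| := ⟨_, rfl⟩
  have l1 : wd N M 1 ≤ l := by
    rw [hl]
    exact h.far (s := 1) yS wS (by rw [y1, w1, hyx]; exact R5)
  have l2 : l ≤ Δ := by
    rw [hl, hΔ]
    exact h.same (s := 0) yS wS (by rw [y0, w0, pow_succ, ← Nat.div_div_eq_div_mul, hyx, R6])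
  have l0 : 0 < l := lt_of_lt_of_le (wd_pos 1 h.hN hM1) l1
  have l1' : Δ * r ≤ l := by
    rw [hwd 1, pow_one] at l1
    exact l1
  have u1 : wd N M (1 + (a + 1 + b)) ≤ l := (hmono (by omega)).trans l1
  have u2 : wd N M (1 + b₀) ≤ l := (hmono (by omega)).trans l1
  have hl' : |tl L x₀ - tl L y| = l := by rw [hl, abs_sub_comm]
  have p1 := wd_pos (N := N) (M := M) (1 + (a + 1 + b)) h.hN hM1
  have p2 := wd_pos (N := N) (M := M) (1 + b₀) h.hN hM1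
  refine core4 h.hv h.hw h.hz (L := L) (H := H) (lam := lam) (ρ := ρ) (η := η) (T := H * wd N M m ^ 4) (K := K) (Δ := Δ)
    (W := Δ ^ 2 * (l ^ 2 / 4) * r ^ (4 + 2 * a + c)) h.hX₁ h.hX₂ h.hX₃ h.hH h.hlam h.hη (by rw [hK]; nlinarith [sq_nonneg lam]) h.hS h.slab
    (p := tl L y) (q := tl L x₀) (r := tl L x₀) (ωp := wd N M (1 + (a + 1 + b))) (ωq := wd N M (1 + b₀)) (ωr := wd N M (1 + b₀))
    (dp := wd N M (1 + (a + 1))) (dq := l / 2) (dr := l / 2) (g := wd N M (1 + (a + 1 + c)))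
    (o₁ := 16 * (wd N M (1 + (a + 1 + b)) ^ 2 * l ^ 2))
    (o₂ := 8 * (wd N M (1 + b₀) ^ 3 * l)) (o₃ := 8 * (wd N M (1 + b₀) ^ 3 * l)) av (fun x hx => (hB x hx).1)
    (fun x hx => (hB' x hx).1) (fun x hx => (hG x hx).1) (fun x hx => (hJ x hx).1) (fun x hx => (hJ x hx).1) ?_ ?_ ?_
    (wd_pos _ h.hN hM1).le (by positivity) (by positivity) (wd_pos _ h.hN hM1).le ?_ ?_ ?_ ?_ ?_ ?_ ?_ ?_ ?_ ?_ ?_ ?_
    (h.coef (h.bd yS) (h.bd wS) (h.bd wS))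
  · exact fun x hx => h.same (hG x hx).1 yS ((hG x hx).2.trans yi.symm)
  · exact fun x hx => h.same (hJ x hx).1 wS ((hJ x hx).2.trans wi.symm)
  · exact fun x hx => h.same (hJ x hx).1 wS ((hJ x hx).2.trans wi.symm)
  · intro x hx x' hx'
    obtain ⟨xS, xi⟩ := hB x hx
    obtain ⟨xS', xi'⟩ := hB' x' hx'
    have R2a : n' / M ^ (a + 1 + c) = n / M ^ (a + 1 + c) := by
      have e2 : M ^ (a + 1 + c) = M ^ c * M ^ (a + 1) := by rw [← pow_add]; congr 1; ring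
      rw [e2, ← Nat.div_div_eq_div_mul, ← Nat.div_div_eq_div_mul, R2]
    have R2b : n' / M ^ (c + 1) = n / M ^ (c + 1) := by
      rw [pow_succ, ← Nat.div_div_eq_div_mul, ← Nat.div_div_eq_div_mul, R2]
    have x2 := h.lev (s := 1 + (a + 1)) (e := c) xi (by ring)
    have x2' := h.lev (s := 1 + (a + 1)) (e := c) xi' (by ring)
    have y2 := h.lev (s := 1 + (a + 1)) (e := b) yi (by ring)
    have x3 := h.lev (s := 1 + a) (e := c + 1) xi (by ring)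
    have x3' := h.lev (s := 1 + a) (e := c + 1) xi' (by ring)
    have y3 := h.lev (s := 1 + a) (e := b + 1) yi (by ring)
    have x1 := h.lev (s := 1) (e := a + 1 + c) xi (by ring)
    have x1' := h.lev (s := 1) (e := a + 1 + c) xi' (by ring)
    have f1 := h.far (s := 1 + (a + 1)) xS yS (by rw [x2, y2]; exact R3)
    have f1' := h.far (s := 1 + (a + 1)) xS' yS (by rw [x2', y2, ← R2]; exact R3)
    have f2 := (h.same (s := 1 + a) xS yS (by rw [x3, y3, R1])).trans (hmono (by omega : 1 ≤ 1 + a))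
    have f2' := (h.same (s := 1 + a) xS' yS (by rw [x3', y3, R1, R2b])).trans (hmono (by omega : 1 ≤ 1 + a))
    have f3 := h.far (s := 1) xS wS (by rw [x1, w1]; exact R5)
    have f3' := h.far (s := 1) xS' wS (by rw [x1', w1, R2a]; exact R5)
    have s1 := h.side (s := 1 + (a + 1)) xS xS' yS (by rw [x2, x2', R2]) (by rw [x2, y2]; exact R3)
    have s2 := h.side (s := 1) xS xS' wS (by rw [x1, x1', R2a]) (by rw [x1, w1]; exact R5)
    have f4 := h.far (s := 1 + (a + 1 + c)) xS xS' (by rw [xi, xi']; exact R4)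
    have g1 := half_far f2 f3
    have g1' := half_far f2' f3'
    rw [← hl] at g1 g1'
    refine ⟨⟨f1, g1, g1⟩, ⟨f1', g1', g1'⟩, ⟨s1, s2, s2⟩, f4, f2'.trans ?_⟩
    rw [hΔ]
    exact hmono (by omega)
  · rw [hl']; exact l2
  · rw [hl']; exact l2
  · rw [hwd, hwd]; ring
  · rw [← hl]
    calc 4 * (wd N M (1 + (a + 1 + b)) ^ 2 * ((wd N M (1 + (a + 1 + b)) + l) * (wd N M (1 + (a + 1 + b)) + l))) ≤
          4 * (wd N M (1 + (a + 1 + b)) ^ 2 * ((l + l) * (l + l))) := by gcongr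
      _ = _ := by ring
  · rw [hl', sub_self, abs_zero, add_zero]
    calc 4 * (wd N M (1 + b₀) ^ 2 * ((wd N M (1 + b₀) + l) * wd N M (1 + b₀))) ≤
          4 * (wd N M (1 + b₀) ^ 2 * ((l + l) * wd N M (1 + b₀))) := by gcongr
      _ = _ := by ring
  · rw [hl', sub_self, abs_zero, add_zero]
    calc 4 * (wd N M (1 + b₀) ^ 2 * (wd N M (1 + b₀) * (wd N M (1 + b₀) + l))) ≤
          4 * (wd N M (1 + b₀) ^ 2 * (wd N M (1 + b₀) * (l + l))) := by gcongr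
      _ = _ := by ring
  · have h6 := gain' (e := 4 + 2 * a + c) (e' := 2 * (1 + (a + 1 + b))) (c := 64) (Q := Δ ^ 2 * (l ^ 2 / 4)) hr0 hr1 hKr hK0 (by norm_num)
      (by norm_num) (by positivity) (by omega)
    refine le_trans (le_of_eq ?_) h6
    rw [hwd]
    ring
  · have h6 := gain' (e := 5 + 2 * a + c) (e' := 3 * (1 + b₀)) (c := 32) (Q := Δ ^ 3 * (l / 4)) hr0 hr1 hKr hK0 (by norm_num)
      (by norm_num) (by positivity) (by omega)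
    calc K * (8 * (wd N M (1 + b₀) ^ 3 * l)) = K * (32 * (Δ ^ 3 * (l / 4) * r ^ (3 * (1 + b₀)))) := by rw [hwd]; ring
      _ ≤ Δ ^ 3 * (l / 4) * r ^ (5 + 2 * a + c) := h6
      _ = Δ ^ 2 * (l * (Δ * r) / 4) * r ^ (4 + 2 * a + c) := by ring
      _ ≤ Δ ^ 2 * (l * l / 4) * r ^ (4 + 2 * a + c) := by gcongr
      _ = _ := by ring
  · have h6 := gain' (e := 5 + 2 * a + c) (e' := 3 * (1 + b₀)) (c := 32) (Q := Δ ^ 3 * (l / 4)) hr0 hr1 hKr hK0 (by norm_num)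
      (by norm_num) (by positivity) (by omega)
    calc K * (8 * (wd N M (1 + b₀) ^ 3 * l)) = K * (32 * (Δ ^ 3 * (l / 4) * r ^ (3 * (1 + b₀)))) := by rw [hwd]; ring
      _ ≤ Δ ^ 3 * (l / 4) * r ^ (5 + 2 * a + c) := h6
      _ = Δ ^ 2 * (l * (Δ * r) / 4) * r ^ (4 + 2 * a + c) := by ring
      _ ≤ Δ ^ 2 * (l * l / 4) * r ^ (4 + 2 * a + c) := by gcongr
      _ = _ := by ring
  · have h6 := gain' (e := 6 + 2 * a + c) (e' := 4 * m + 8) (c := 64) (Q := Δ ^ 4 / 4) hr0 hr1 hKr hK0 (by norm_num) (by norm_num)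
      (by positivity) (by omega)
    have h7 := h.thin
    rw [← hr] at h7
    calc K * (η * (16 * Δ ^ 4)) ≤ K * (r ^ (4 * m + 8) * (16 * Δ ^ 4)) := by gcongr
      _ = K * (64 * (Δ ^ 4 / 4 * r ^ (4 * m + 8))) := by ring
      _ ≤ Δ ^ 4 / 4 * r ^ (6 + 2 * a + c) := h6
      _ = Δ ^ 2 * ((Δ * r) ^ 2 / 4) * r ^ (4 + 2 * a + c) := by ring
      _ ≤ _ := by gcongr
  · have h6 := gain' (e := 6 + 2 * a + c) (e' := 4 * m) (c := 4) (Q := Δ ^ 4 / 4) hr0 hr1 hKr hK0 (by norm_num) (by norm_num)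
      (by positivity) (by omega)
    have hH0 := h.hH.le
    rw [hwd]
    calc K * (H * (Δ * r ^ m) ^ 4) = H * (K * (4 * (Δ ^ 4 / 4 * r ^ (4 * m)))) := by ring
      _ ≤ H * (Δ ^ 4 / 4 * r ^ (6 + 2 * a + c)) := mul_le_mul_of_nonneg_left h6 hH0
      _ = H * (Δ ^ 2 * ((Δ * r) ^ 2 / 4) * r ^ (4 + 2 * a + c)) := by ring
      _ ≤ _ := by gcongr

end

end Pool.Agent.Helper82.QG
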