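import Pool.Agent.Helper82.QG.A5

/-!
# QG-A6: the last two cases of the geometry
-/

open MeasureTheory Real Set Filter Topology

set_option autoImplicit false

namespace Pool.Agent.Helper82.QG

open Pool.Agent.Helper22.AE
open Pool.Agent.Helper92.GC
open Pool.Agent.Helper22.AC (IsWt sep)

section
variable {X₁ X₂ X₃ : ℝ} {v w z : ℝ → ℝ} {L : Fm} {o H lam ρ η : ℝ} {N M m : ℕ} {S : Finset (ℤ × ℤ)}

/-- two groups in `G`, one in `J` -/
theorem caseC (h : Ctx X₁ X₂ X₃ v w z L o H lam ρ η N M m S) {b₀ D a b c n n' nk nJ : ℕ} (h1 : 3 * D ≤ 2 * b₀) (h2 : 1 + b₀ ≤ m)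
    (h3 : c + 1 ≤ 3 * b) (h4 : a + 1 + b ≤ D) (h5 : a + 1 + c ≤ D)
    {B B' G J : Finset (ℤ × ℤ)} (av : ℤ × ℤ → ℂ) (hB : ∀ x ∈ B, x ∈ S ∧ ix N M (1 + (a + 1 + c)) (tl L x + o) = n)
    (hB' : ∀ x ∈ B', x ∈ S ∧ ix N M (1 + (a + 1 + c)) (tl L x + o) = n')
    (hG : ∀ x ∈ G, x ∈ S ∧ ix N M (1 + (a + 1 + b)) (tl L x + o) = nk) (hJ : ∀ x ∈ J, x ∈ S ∧ ix N M (1 + b₀) (tl L x + o) = nJ)
    (R1 : nk / M ^ (b + 1) = n / M ^ (c + 1)) (R2 : n / M ^ c = n' / M ^ c) (R3 : sep (n / M ^ c) (nk / M ^ b)) (R4 : sep n n')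
    (R5 : sep (n / M ^ (a + 1 + c)) (nJ / M ^ b₀)) (R6 : n / M ^ (a + 1 + c) / M = nJ / M ^ (b₀ + 1)) :
    ∫ ω, tri L av B B' G G J ω ∂(mu3 v w z) = 0 := by
  have hM1 := h.M1
  have hM0 : (0 : ℝ) < M := by exact_mod_cast hM1
  rcases Finset.eq_empty_or_nonempty G with hGe | ⟨y, hy⟩
  · exact tri_empty _ (Or.inl hGe)
  rcases Finset.eq_empty_or_nonempty J with hJe | ⟨x₀, hx₀⟩
  · exact tri_empty _ (Or.inr (Or.inr hJe))
  have hc1 : 1 ≤ c := by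
    rcases Nat.eq_zero_or_pos c with h0 | h0
    · subst h0
      rw [pow_zero, Nat.div_one, Nat.div_one] at R2
      subst R2
      unfold Pool.Agent.Helper22.AC.sep at R4
      omega
    · exact h0
  obtain ⟨r, hr⟩ : ∃ r : ℝ, r = 1 / (M : ℝ) := ⟨_, rfl⟩
  have hr0 : 0 < r := by rw [hr]; positivity
  have hr1 : r ≤ 1 := by
    rw [hr, div_le_one hM0]
    exact_mod_cast hM1
  obtain ⟨Δ, hΔ⟩ : ∃ Δ : ℝ, Δ = wd N M 0 := ⟨_, rfl⟩
  have hΔ0 : 0 < Δ := by rw [hΔ]; exact wd_pos 0 h.hN hM1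
  have hwd : ∀ s : ℕ, wd N M s = Δ * r ^ s := by
    intro s
    rw [hΔ, hr, ← wd_add 0 s hM1, zero_add]
  have hmono : ∀ {s t : ℕ}, s ≤ t → wd N M t ≤ wd N M s := by
    intro s t hst
    rw [hwd, hwd]
    exact mul_le_mul_of_nonneg_left (pow_le_pow_of_le_one hr0.le hr1 hst) hΔ0.le
  obtain ⟨K, hK⟩ : ∃ K : ℝ, K = 8 * lam ^ 2 := ⟨_, rfl⟩
  have hK0 : 0 ≤ K := by rw [hK]; positivity
  have hKr : 96 * K * r ≤ 1 := by rw [hK, hr]; exact h.Kr
  obtain ⟨yS, yi⟩ := hG y hy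
  obtain ⟨wS, wi⟩ := hJ x₀ hx₀
  -- the levels of `y` and `x₀`
  have hyx : nk / M ^ (a + 1 + b) = n / M ^ (a + 1 + c) := by
    have e1 : M ^ (a + 1 + b) = M ^ (b + 1) * M ^ a := by rw [← pow_add]; congr 1; ring
    have e2 : M ^ (a + 1 + c) = M ^ (c + 1) * M ^ a := by rw [← pow_add]; congr 1; ring
    rw [e1, e2, ← Nat.div_div_eq_div_mul, ← Nat.div_div_eq_div_mul, R1]
  have y1 := h.lev (s := 1) (e := a + 1 + b) yi rfl
  have w1 := h.lev (s := 1) (e := b₀) wi rfl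
  have y0 := h.lev (s := 0) (e := a + 1 + b + 1) yi (by ring)
  have w0 := h.lev (s := 0) (e := b₀ + 1) wi (by ring)
  obtain ⟨l, hl⟩ : ∃ l, l = |tl L y - tl L x₀| := ⟨_, rfl⟩
  have l1 : wd N M 1 ≤ l := by
    rw [hl]
    exact h.far (s := 1) yS wS (by rw [y1, w1, hyx]; exact R5)
  have l2 : l ≤ Δ := by
    rw [hl, hΔ]
    exact h.same (s := 0) yS wS (by rw [y0, w0, pow_succ, ← Nat.div_div_eq_div_mul, hyx, R6])
  have l0 : 0 < l := lt_of_lt_of_le (wd_pos 1 h.hN hM1) l1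
  have l1' : Δ * r ≤ l := by
    rw [hwd 1, pow_one] at l1
    exact l1
  have u1 : wd N M (1 + (a + 1 + b)) ≤ l := (hmono (by omega)).trans l1
  have u2 : wd N M (1 + b₀) ≤ l := (hmono (by omega)).trans l1
  have hl' : |tl L x₀ - tl L y| = l := by rw [hl, abs_sub_comm]
  have p1 := wd_pos (N := N) (M := M) (1 + (a + 1 + b)) h.hN hM1
  have p2 := wd_pos (N := N) (M := M) (1 + b₀) h.hN hM1
  refine core4 h.hv h.hw h.hz (L := L) (H := H) (lam := lam) (ρ := ρ) (η := η) (T := H * wd N M m ^ 4) (K := K) (Δ := Δ)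
    (W := Δ ^ 3 * (l / 2) * r ^ (6 + 3 * a + c)) h.hX₁ h.hX₂ h.hX₃ h.hH h.hlam h.hη (by rw [hK]; nlinarith [sq_nonneg lam]) h.hS h.slab
    (p := tl L y) (q := tl L y) (r := tl L x₀) (ωp := wd N M (1 + (a + 1 + b))) (ωq := wd N M (1 + (a + 1 + b))) (ωr := wd N M (1 + b₀))
    (dp := wd N M (1 + (a + 1))) (dq := wd N M (1 + (a + 1))) (dr := l / 2) (g := wd N M (1 + (a + 1 + c)))
    (o₁ := 8 * (wd N M (1 + (a + 1 + b)) ^ 3 * l))
    (o₂ := 8 * (wd N M (1 + (a + 1 + b)) ^ 3 * l)) (o₃ := 16 * (wd N M (1 + b₀) ^ 2 * l ^ 2)) av (fun x hx => (hB x hx).1)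
    (fun x hx => (hB' x hx).1) (fun x hx => (hG x hx).1) (fun x hx => (hG x hx).1) (fun x hx => (hJ x hx).1) ?_ ?_ ?_
    (wd_pos _ h.hN hM1).le (wd_pos _ h.hN hM1).le (by positivity) (wd_pos _ h.hN hM1).le ?_ ?_ ?_ ?_ ?_ ?_ ?_ ?_ ?_ ?_ ?_ ?_
    (h.coef (h.bd yS) (h.bd yS) (h.bd wS))
  · exact fun x hx => h.same (hG x hx).1 yS ((hG x hx).2.trans yi.symm)
  · exact fun x hx => h.same (hG x hx).1 yS ((hG x hx).2.trans yi.symm)
  · exact fun x hx => h.same (hJ x hx).1 wS ((hJ x hx).2.trans wi.symm)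
  · intro x hx x' hx'
    obtain ⟨xS, xi⟩ := hB x hx
    obtain ⟨xS', xi'⟩ := hB' x' hx'
    have R2a : n' / M ^ (a + 1 + c) = n / M ^ (a + 1 + c) := by
      have e2 : M ^ (a + 1 + c) = M ^ c * M ^ (a + 1) := by rw [← pow_add]; congr 1; ring
      rw [e2, ← Nat.div_div_eq_div_mul, ← Nat.div_div_eq_div_mul, R2]
    have R2b : n' / M ^ (c + 1) = n / M ^ (c + 1) := by
      rw [pow_succ, ← Nat.div_div_eq_div_mul, ← Nat.div_div_eq_div_mul, R2]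
    have x2 := h.lev (s := 1 + (a + 1)) (e := c) xi (by ring)
    have x2' := h.lev (s := 1 + (a + 1)) (e := c) xi' (by ring)
    have y2 := h.lev (s := 1 + (a + 1)) (e := b) yi (by ring)
    have x3 := h.lev (s := 1 + a) (e := c + 1) xi (by ring)
    have x3' := h.lev (s := 1 + a) (e := c + 1) xi' (by ring)
    have y3 := h.lev (s := 1 + a) (e := b + 1) yi (by ring)
    have x1 := h.lev (s := 1) (e := a + 1 + c) xi (by ring)
    have x1' := h.lev (s := 1) (e := a + 1 + c) xi' (by ring)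
    have f1 := h.far (s := 1 + (a + 1)) xS yS (by rw [x2, y2]; exact R3)
    have f1' := h.far (s := 1 + (a + 1)) xS' yS (by rw [x2', y2, ← R2]; exact R3)
    have f2 := (h.same (s := 1 + a) xS yS (by rw [x3, y3, R1])).trans (hmono (by omega : 1 ≤ 1 + a))
    have f2' := (h.same (s := 1 + a) xS' yS (by rw [x3', y3, R1, R2b])).trans (hmono (by omega : 1 ≤ 1 + a))
    have f3 := h.far (s := 1) xS wS (by rw [x1, w1]; exact R5)
    have f3' := h.far (s := 1) xS' wS (by rw [x1', w1, R2a]; exact R5)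
    have s1 := h.side (s := 1 + (a + 1)) xS xS' yS (by rw [x2, x2', R2]) (by rw [x2, y2]; exact R3)
    have s2 := h.side (s := 1) xS xS' wS (by rw [x1, x1', R2a]) (by rw [x1, w1]; exact R5)
    have f4 := h.far (s := 1 + (a + 1 + c)) xS xS' (by rw [xi, xi']; exact R4)
    have g1 := half_far f2 f3
    have g1' := half_far f2' f3'
    rw [← hl] at g1 g1'
    refine ⟨⟨f1, f1, g1⟩, ⟨f1', f1', g1'⟩, ⟨s1, s1, s2⟩, f4, f2'.trans ?_⟩
    rw [hΔ]
    exact hmono (by omega)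
  · rw [sub_self, abs_zero]; exact hΔ0.le
  · rw [hl']; exact l2
  · rw [hwd, hwd]; ring
  · rw [← hl, sub_self, abs_zero, add_zero]
    calc 4 * (wd N M (1 + (a + 1 + b)) ^ 2 * (wd N M (1 + (a + 1 + b)) * (wd N M (1 + (a + 1 + b)) + l))) ≤
          4 * (wd N M (1 + (a + 1 + b)) ^ 2 * (wd N M (1 + (a + 1 + b)) * (l + l))) := by gcongr
      _ = _ := by ring
  · rw [← hl, sub_self, abs_zero, add_zero]
    calc 4 * (wd N M (1 + (a + 1 + b)) ^ 2 * (wd N M (1 + (a + 1 + b)) * (wd N M (1 + (a + 1 + b)) + l))) ≤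
          4 * (wd N M (1 + (a + 1 + b)) ^ 2 * (wd N M (1 + (a + 1 + b)) * (l + l))) := by gcongr
      _ = _ := by ring
  · rw [hl']
    calc 4 * (wd N M (1 + b₀) ^ 2 * ((wd N M (1 + b₀) + l) * (wd N M (1 + b₀) + l))) ≤
          4 * (wd N M (1 + b₀) ^ 2 * ((l + l) * (l + l))) := by gcongr
      _ = _ := by ring
  · have h6 := gain' (e := 6 + 3 * a + c) (e' := 3 * (1 + (a + 1 + b))) (c := 16) (Q := Δ ^ 3 * (l / 2)) hr0 hr1 hKr hK0 (by norm_num)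
      (by norm_num) (by positivity) (by omega)
    refine le_trans (le_of_eq ?_) h6
    rw [hwd]
    ring
  · have h6 := gain' (e := 6 + 3 * a + c) (e' := 3 * (1 + (a + 1 + b))) (c := 16) (Q := Δ ^ 3 * (l / 2)) hr0 hr1 hKr hK0 (by norm_num)
      (by norm_num) (by positivity) (by omega)
    refine le_trans (le_of_eq ?_) h6
    rw [hwd]
    ring
  · have h6 := gain' (e := 6 + 3 * a + c) (e' := 2 * (1 + b₀)) (c := 32) (Q := Δ ^ 3 * (l / 2)) hr0 hr1 hKr hK0 (by norm_num)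
      (by norm_num) (by positivity) (by omega)
    calc K * (16 * (wd N M (1 + b₀) ^ 2 * l ^ 2)) = K * (16 * (Δ ^ 2 * r ^ (2 * (1 + b₀)) * (l * l))) := by rw [hwd]; ring
      _ ≤ K * (16 * (Δ ^ 2 * r ^ (2 * (1 + b₀)) * (Δ * l))) := by gcongr
      _ = K * (32 * (Δ ^ 3 * (l / 2) * r ^ (2 * (1 + b₀)))) := by ring
      _ ≤ _ := h6
  · have h6 := gain' (e := 7 + 3 * a + c) (e' := 4 * m + 8) (c := 32) (Q := Δ ^ 4 / 2) hr0 hr1 hKr hK0 (by norm_num) (by norm_num)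
      (by positivity) (by omega)
    have h7 := h.thin
    rw [← hr] at h7
    calc K * (η * (16 * Δ ^ 4)) ≤ K * (r ^ (4 * m + 8) * (16 * Δ ^ 4)) := by gcongr
      _ = K * (32 * (Δ ^ 4 / 2 * r ^ (4 * m + 8))) := by ring
      _ ≤ Δ ^ 4 / 2 * r ^ (7 + 3 * a + c) := h6
      _ = Δ ^ 3 * ((Δ * r) / 2) * r ^ (6 + 3 * a + c) := by ring
      _ ≤ _ := by gcongr
  · have h6 := gain' (e := 7 + 3 * a + c) (e' := 4 * m) (c := 2) (Q := Δ ^ 4 / 2) hr0 hr1 hKr hK0 (by norm_num) (by norm_num)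
      (by positivity) (by omega)
    have hH0 := h.hH.le
    rw [hwd]
    calc K * (H * (Δ * r ^ m) ^ 4) = H * (K * (2 * (Δ ^ 4 / 2 * r ^ (4 * m)))) := by ring
      _ ≤ H * (Δ ^ 4 / 2 * r ^ (7 + 3 * a + c)) := mul_le_mul_of_nonneg_left h6 hH0
      _ = H * (Δ ^ 3 * ((Δ * r) / 2) * r ^ (6 + 3 * a + c)) := by ring
      _ ≤ _ := by gcongr

/-- three groups in three arcs -/
theorem caseD (h : Ctx X₁ X₂ X₃ v w z L o H lam ρ η N M m S) {b₀ D a b A b' c n n' nk nK nJ : ℕ} (h1 : 3 * D ≤ 2 * b₀) (h2 : 1 + b₀ ≤ m)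
    (h3 : a + 1 ≤ A) (h4 : c + 1 ≤ 2 * b') (h5 : A + 1 + b' ≤ a + b) (h6 : A + 1 + c ≤ a + b) (h7 : a + 1 + b ≤ D)
    {B B' G₁ G₂ J : Finset (ℤ × ℤ)} (av : ℤ × ℤ → ℂ) (hB : ∀ x ∈ B, x ∈ S ∧ ix N M (1 + (A + 1 + c)) (tl L x + o) = n)
    (hB' : ∀ x ∈ B', x ∈ S ∧ ix N M (1 + (A + 1 + c)) (tl L x + o) = n')
    (hG₁ : ∀ x ∈ G₁, x ∈ S ∧ ix N M (1 + (A + 1 + b')) (tl L x + o) = nk)
    (hG₂ : ∀ x ∈ G₂, x ∈ S ∧ ix N M (1 + (a + 1 + b)) (tl L x + o) = nK)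
    (hJ : ∀ x ∈ J, x ∈ S ∧ ix N M (1 + b₀) (tl L x + o) = nJ)
    (R1 : nk / M ^ (b' + 1) = n / M ^ (c + 1)) (R2 : n / M ^ c = n' / M ^ c) (R3 : sep (n / M ^ c) (nk / M ^ b')) (R4 : sep n n')
    (R5 : sep (n / M ^ (A + 1 + c)) (nJ / M ^ b₀)) (R6 : n / M ^ (A + 1 + c) / M = nJ / M ^ (b₀ + 1))
    (R7 : n / M ^ (c + 1) / M ^ (A - a) = nK / M ^ (b + 1)) (R8 : sep (n / M ^ (c + 1) / M ^ (A - (a + 1))) (nK / M ^ b)) :
    ∫ ω, tri L av B B' G₁ G₂ J ω ∂(mu3 v w z) = 0 := by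
  have hM1 := h.M1
  have hM0 : (0 : ℝ) < M := by exact_mod_cast hM1
  rcases Finset.eq_empty_or_nonempty G₁ with hGe | ⟨y, hy⟩
  · exact tri_empty _ (Or.inl hGe)
  rcases Finset.eq_empty_or_nonempty G₂ with hGe | ⟨y', hy'⟩
  · exact tri_empty _ (Or.inr (Or.inl hGe))
  rcases Finset.eq_empty_or_nonempty J with hJe | ⟨x₀, hx₀⟩
  · exact tri_empty _ (Or.inr (Or.inr hJe))
  have hc1 : 1 ≤ c := by
    rcases Nat.eq_zero_or_pos c with h0 | h0
    · subst h0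
      rw [pow_zero, Nat.div_one, Nat.div_one] at R2
      subst R2
      unfold Pool.Agent.Helper22.AC.sep at R4
      omega
    · exact h0
  obtain ⟨e₀, he₀⟩ : ∃ e₀, A = a + 1 + e₀ := ⟨A - (a + 1), by omega⟩
  have e4 : A - a = e₀ + 1 := by omega
  have e5 : A - (a + 1) = e₀ := by omega
  rw [e4] at R7
  rw [e5] at R8
  obtain ⟨r, hr⟩ : ∃ r : ℝ, r = 1 / (M : ℝ) := ⟨_, rfl⟩
  have hr0 : 0 < r := by rw [hr]; positivity
  have hr1 : r ≤ 1 := by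
    rw [hr, div_le_one hM0]
    exact_mod_cast hM1
  obtain ⟨Δ, hΔ⟩ : ∃ Δ : ℝ, Δ = wd N M 0 := ⟨_, rfl⟩
  have hΔ0 : 0 < Δ := by rw [hΔ]; exact wd_pos 0 h.hN hM1
  have hwd : ∀ s : ℕ, wd N M s = Δ * r ^ s := by
    intro s
    rw [hΔ, hr, ← wd_add 0 s hM1, zero_add]
  have hmono : ∀ {s t : ℕ}, s ≤ t → wd N M t ≤ wd N M s := by
    intro s t hst
    rw [hwd, hwd]
    exact mul_le_mul_of_nonneg_left (pow_le_pow_of_le_one hr0.le hr1 hst) hΔ0.le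
  obtain ⟨K, hK⟩ : ∃ K : ℝ, K = 8 * lam ^ 2 := ⟨_, rfl⟩
  have hK0 : 0 ≤ K := by rw [hK]; positivity
  have hKr : 96 * K * r ≤ 1 := by rw [hK, hr]; exact h.Kr
  obtain ⟨yS, yi⟩ := hG₁ y hy
  obtain ⟨yS', yi'⟩ := hG₂ y' hy'
  obtain ⟨wS, wi⟩ := hJ x₀ hx₀
  -- arithmetic of the indices
  have hyx : nk / M ^ (A + 1 + b') = n / M ^ (A + 1 + c) := by
    have e1 : M ^ (A + 1 + b') = M ^ (b' + 1) * M ^ A := by rw [← pow_add]; congr 1; ring
    have e2 : M ^ (A + 1 + c) = M ^ (c + 1) * M ^ A := by rw [← pow_add]; congr 1; ring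
    rw [e1, e2, ← Nat.div_div_eq_div_mul, ← Nat.div_div_eq_div_mul, R1]
  have hzx : nK / M ^ (a + 1 + b) = n / M ^ (A + 1 + c) := by
    have e1 : M ^ (a + 1 + b) = M ^ (b + 1) * M ^ a := by rw [← pow_add]; congr 1; ring
    have e2 : M ^ (A + 1 + c) = M ^ (c + 1) * M ^ (e₀ + 1) * M ^ a := by rw [← pow_add, ← pow_add]; congr 1; omega
    rw [e1, e2, ← Nat.div_div_eq_div_mul, ← Nat.div_div_eq_div_mul, ← Nat.div_div_eq_div_mul, ← R7]
  have hyz : nk / M ^ (b' + 1 + (e₀ + 1)) = nK / M ^ (b + 1) := by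
    rw [pow_add, ← Nat.div_div_eq_div_mul, R1, R7]
  have hyz' : sep (nk / M ^ (b' + 1 + e₀)) (nK / M ^ b) := by
    rw [pow_add, ← Nat.div_div_eq_div_mul, R1]
    exact R8
  -- levels
  have y1 := h.lev (s := 1) (e := A + 1 + b') yi rfl
  have z1 := h.lev (s := 1) (e := a + 1 + b) yi' rfl
  have w1 := h.lev (s := 1) (e := b₀) wi rfl
  have y0 := h.lev (s := 0) (e := A + 1 + b' + 1) yi (by ring)
  have z0 := h.lev (s := 0) (e := a + 1 + b + 1) yi' (by ring)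
  have w0 := h.lev (s := 0) (e := b₀ + 1) wi (by ring)
  have y5 := h.lev (s := 1 + a) (e := b' + 1 + (e₀ + 1)) yi (by omega)
  have z5 := h.lev (s := 1 + a) (e := b + 1) yi' (by omega)
  have y6 := h.lev (s := 1 + (a + 1)) (e := b' + 1 + e₀) yi (by omega)
  have z6 := h.lev (s := 1 + (a + 1)) (e := b) yi' (by omega)
  obtain ⟨l, hl⟩ : ∃ l, l = |tl L y - tl L x₀| := ⟨_, rfl⟩
  obtain ⟨k, hk⟩ : ∃ k, k = |tl L y - tl L y'| := ⟨_, rfl⟩
  have l1 : wd N M 1 ≤ l := by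
    rw [hl]
    exact h.far (s := 1) yS wS (by rw [y1, w1, hyx]; exact R5)
  have l2 : l ≤ Δ := by
    rw [hl, hΔ]
    exact h.same (s := 0) yS wS (by rw [y0, w0, pow_succ, ← Nat.div_div_eq_div_mul, hyx, R6])
  have k1 : wd N M (1 + (a + 1)) ≤ k := by
    rw [hk]
    exact h.far (s := 1 + (a + 1)) yS yS' (by rw [y6, z6]; exact hyz')
  have k2 : k ≤ wd N M 1 := by
    rw [hk]
    exact (h.same (s := 1 + a) yS yS' (by rw [y5, z5, hyz])).trans (hmono (by omega))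
  have l0 : 0 < l := lt_of_lt_of_le (wd_pos 1 h.hN hM1) l1
  have k0 : 0 < k := lt_of_lt_of_le (wd_pos _ h.hN hM1) k1
  have l1' : Δ * r ≤ l := by
    rw [hwd 1, pow_one] at l1
    exact l1
  have k1' : Δ * r ^ (2 + a) ≤ k := by
    rw [hwd] at k1
    have e6 : 1 + (a + 1) = 2 + a := by ring
    rwa [e6] at k1
  have u1 : wd N M (1 + (A + 1 + b')) ≤ k := (hmono (by omega)).trans k1
  have u2 : wd N M (1 + (a + 1 + b)) ≤ k := (hmono (by omega)).trans k1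
  have u3 : wd N M (1 + b₀) ≤ l := (hmono (by omega)).trans l1
  have kl : k ≤ l := k2.trans l1
  have hl' : |tl L x₀ - tl L y| = l := by rw [hl, abs_sub_comm]
  have hk' : |tl L y' - tl L y| = k := by rw [hk, abs_sub_comm]
  have hzw : |tl L y' - tl L x₀| ≤ 2 * l := by
    have h8 := abs_sub_le (tl L y') (tl L y) (tl L x₀)
    rw [hk', ← hl] at h8
    linarith
  have hzw' : |tl L x₀ - tl L y'| ≤ 2 * l := by rw [abs_sub_comm]; exact hzw
  have p1 := wd_pos (N := N) (M := M) (1 + (A + 1 + b')) h.hN hM1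
  have p2 := wd_pos (N := N) (M := M) (1 + (a + 1 + b)) h.hN hM1
  have p3 := wd_pos (N := N) (M := M) (1 + b₀) h.hN hM1
  have n1 := abs_nonneg (tl L y' - tl L x₀)
  have n2 := abs_nonneg (tl L x₀ - tl L y')
  refine core4 h.hv h.hw h.hz (L := L) (H := H) (lam := lam) (ρ := ρ) (η := η) (T := H * wd N M m ^ 4) (K := K) (Δ := Δ)
    (W := Δ ^ 2 * (k * l / 4) * r ^ (4 + 2 * A + c)) h.hX₁ h.hX₂ h.hX₃ h.hH h.hlam h.hη (by rw [hK]; nlinarith [sq_nonneg lam]) h.hS h.slab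
    (p := tl L y) (q := tl L y') (r := tl L x₀) (ωp := wd N M (1 + (A + 1 + b'))) (ωq := wd N M (1 + (a + 1 + b))) (ωr := wd N M (1 + b₀))
    (dp := wd N M (1 + (A + 1))) (dq := k / 2) (dr := l / 2) (g := wd N M (1 + (A + 1 + c)))
    (o₁ := 16 * (wd N M (1 + (A + 1 + b')) ^ 2 * (k * l)))
    (o₂ := 24 * (wd N M (1 + (a + 1 + b)) ^ 2 * (k * l))) (o₃ := 24 * (wd N M (1 + b₀) ^ 2 * (l * l))) av (fun x hx => (hB x hx).1)
    (fun x hx => (hB' x hx).1) (fun x hx => (hG₁ x hx).1) (fun x hx => (hG₂ x hx).1) (fun x hx => (hJ x hx).1) ?_ ?_ ?_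
    (wd_pos _ h.hN hM1).le (by positivity) (by positivity) (wd_pos _ h.hN hM1).le ?_ ?_ ?_ ?_ ?_ ?_ ?_ ?_ ?_ ?_ ?_ ?_
    (h.coef (h.bd yS) (h.bd yS') (h.bd wS))
  · exact fun x hx => h.same (hG₁ x hx).1 yS ((hG₁ x hx).2.trans yi.symm)
  · exact fun x hx => h.same (hG₂ x hx).1 yS' ((hG₂ x hx).2.trans yi'.symm)
  · exact fun x hx => h.same (hJ x hx).1 wS ((hJ x hx).2.trans wi.symm)
  · intro x hx x' hx'
    obtain ⟨xS, xi⟩ := hB x hx
    obtain ⟨xS', xi'⟩ := hB' x' hx'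
    have R2a : n' / M ^ (A + 1 + c) = n / M ^ (A + 1 + c) := by
      have e2 : M ^ (A + 1 + c) = M ^ c * M ^ (A + 1) := by rw [← pow_add]; congr 1; ring
      rw [e2, ← Nat.div_div_eq_div_mul, ← Nat.div_div_eq_div_mul, R2]
    have R2b : n' / M ^ (c + 1) = n / M ^ (c + 1) := by
      rw [pow_succ, ← Nat.div_div_eq_div_mul, ← Nat.div_div_eq_div_mul, R2]
    have R8x : sep (n / M ^ (c + 1 + e₀)) (nK / M ^ b) := by
      rw [pow_add, ← Nat.div_div_eq_div_mul]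
      exact R8
    have R8x' : sep (n' / M ^ (c + 1 + e₀)) (nK / M ^ b) := by
      rw [pow_add, ← Nat.div_div_eq_div_mul, R2b]
      exact R8
    have R2c : n / M ^ (c + 1 + e₀) = n' / M ^ (c + 1 + e₀) := by
      rw [pow_add, ← Nat.div_div_eq_div_mul, ← Nat.div_div_eq_div_mul, R2b]
    have x2 := h.lev (s := 1 + (A + 1)) (e := c) xi (by ring)
    have x2' := h.lev (s := 1 + (A + 1)) (e := c) xi' (by ring)
    have y2 := h.lev (s := 1 + (A + 1)) (e := b') yi (by ring)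
    have x3 := h.lev (s := 1 + A) (e := c + 1) xi (by ring)
    have x3' := h.lev (s := 1 + A) (e := c + 1) xi' (by ring)
    have y3 := h.lev (s := 1 + A) (e := b' + 1) yi (by ring)
    have x1 := h.lev (s := 1) (e := A + 1 + c) xi (by ring)
    have x1' := h.lev (s := 1) (e := A + 1 + c) xi' (by ring)
    have x6 := h.lev (s := 1 + (a + 1)) (e := c + 1 + e₀) xi (by omega)
    have x6' := h.lev (s := 1 + (a + 1)) (e := c + 1 + e₀) xi' (by omega)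
    have f1 := h.far (s := 1 + (A + 1)) xS yS (by rw [x2, y2]; exact R3)
    have f1' := h.far (s := 1 + (A + 1)) xS' yS (by rw [x2', y2, ← R2]; exact R3)
    have f2 := h.same (s := 1 + A) xS yS (by rw [x3, y3, R1])
    have f2' := h.same (s := 1 + A) xS' yS (by rw [x3', y3, R1, R2b])
    have f3 := h.far (s := 1) xS wS (by rw [x1, w1]; exact R5)
    have f3' := h.far (s := 1) xS' wS (by rw [x1', w1, R2a]; exact R5)
    have f5 := h.far (s := 1 + (a + 1)) xS yS' (by rw [x6, z6]; exact R8x)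
    have f5' := h.far (s := 1 + (a + 1)) xS' yS' (by rw [x6', z6]; exact R8x')
    have s1 := h.side (s := 1 + (A + 1)) xS xS' yS (by rw [x2, x2', R2]) (by rw [x2, y2]; exact R3)
    have s2 := h.side (s := 1) xS xS' wS (by rw [x1, x1', R2a]) (by rw [x1, w1]; exact R5)
    have s3 := h.side (s := 1 + (a + 1)) xS xS' yS' (by rw [x6, x6', R2c]) (by rw [x6, z6]; exact R8x)
    have f4 := h.far (s := 1 + (A + 1 + c)) xS xS' (by rw [xi, xi']; exact R4)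
    have g1 := half_far (f2.trans (hmono (by omega : 1 ≤ 1 + A))) f3
    have g1' := half_far (f2'.trans (hmono (by omega : 1 ≤ 1 + A))) f3'
    have g2 := half_far (f2.trans (hmono (by omega : 1 + (a + 1) ≤ 1 + A))) f5
    have g2' := half_far (f2'.trans (hmono (by omega : 1 + (a + 1) ≤ 1 + A))) f5'
    rw [← hl] at g1 g1'
    rw [← hk] at g2 g2'
    refine ⟨⟨f1, g2, g1⟩, ⟨f1', g2', g1'⟩, ⟨s1, s3, s2⟩, f4, f2'.trans ?_⟩
    rw [hΔ]
    exact hmono (by omega)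
  · rw [hk']; exact kl.trans l2
  · rw [hl']; exact l2
  · rw [hwd, hwd]; ring
  · rw [← hl, ← hk]
    calc 4 * (wd N M (1 + (A + 1 + b')) ^ 2 * ((wd N M (1 + (A + 1 + b')) + k) * (wd N M (1 + (A + 1 + b')) + l))) ≤
          4 * (wd N M (1 + (A + 1 + b')) ^ 2 * ((k + k) * (l + l))) := by
          have u4 := u1.trans kl
          gcongr
      _ = _ := by ring
  · rw [hk']
    calc 4 * (wd N M (1 + (a + 1 + b)) ^ 2 * ((wd N M (1 + (a + 1 + b)) + k) * (wd N M (1 + (a + 1 + b)) + |tl L y' - tl L x₀|))) ≤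
          4 * (wd N M (1 + (a + 1 + b)) ^ 2 * ((k + k) * (l + 2 * l))) := by
          have u4 := u2.trans kl
          gcongr
      _ = _ := by ring
  · rw [hl']
    calc 4 * (wd N M (1 + b₀) ^ 2 * ((wd N M (1 + b₀) + |tl L x₀ - tl L y'|) * (wd N M (1 + b₀) + l))) ≤
          4 * (wd N M (1 + b₀) ^ 2 * ((l + 2 * l) * (l + l))) := by gcongr
      _ = _ := by ring
  · have h8 := gain' (e := 4 + 2 * A + c) (e' := 2 * (1 + (A + 1 + b'))) (c := 64) (Q := Δ ^ 2 * (k * l / 4)) hr0 hr1 hKr hK0 (by norm_num)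
      (by norm_num) (by positivity) (by omega)
    refine le_trans (le_of_eq ?_) h8
    rw [hwd]
    ring
  · have h8 := gain' (e := 4 + 2 * A + c) (e' := 2 * (1 + (a + 1 + b))) (c := 96) (Q := Δ ^ 2 * (k * l / 4)) hr0 hr1 hKr hK0 (by norm_num)
      (by norm_num) (by positivity) (by omega)
    refine le_trans (le_of_eq ?_) h8
    rw [hwd]
    ring
  · have h8 := gain' (e := 6 + 2 * A + c + a) (e' := 2 * (1 + b₀)) (c := 96) (Q := Δ ^ 4 / 4) hr0 hr1 hKr hK0 (by norm_num)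
      (by norm_num) (by positivity) (by omega)
    have h9 : K * (96 * (Δ ^ 3 / 4 * r ^ (2 * (1 + b₀)))) ≤ Δ ^ 3 / 4 * r ^ (6 + 2 * A + c + a) := by
      refine le_of_mul_le_mul_right ?_ hΔ0
      refine le_trans (le_of_eq ?_) (h8.trans (le_of_eq ?_))
      · ring
      · ring
    calc K * (24 * (wd N M (1 + b₀) ^ 2 * (l * l))) = K * (24 * (Δ ^ 2 * r ^ (2 * (1 + b₀)) * (l * l))) := by rw [hwd]; ring
      _ ≤ K * (24 * (Δ ^ 2 * r ^ (2 * (1 + b₀)) * (Δ * l))) := by gcongr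
      _ = K * (96 * (Δ ^ 3 / 4 * r ^ (2 * (1 + b₀)))) * l := by ring
      _ ≤ Δ ^ 3 / 4 * r ^ (6 + 2 * A + c + a) * l := mul_le_mul_of_nonneg_right h9 l0.le
      _ = Δ ^ 2 * ((Δ * r ^ (2 + a)) * l / 4) * r ^ (4 + 2 * A + c) := by ring
      _ ≤ _ := by gcongr
  · have h8 := gain' (e := 7 + 2 * A + c + a) (e' := 4 * m + 8) (c := 64) (Q := Δ ^ 4 / 4) hr0 hr1 hKr hK0 (by norm_num) (by norm_num)
      (by positivity) (by omega)
    have h9 := h.thin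
    rw [← hr] at h9
    calc K * (η * (16 * Δ ^ 4)) ≤ K * (r ^ (4 * m + 8) * (16 * Δ ^ 4)) := by gcongr
      _ = K * (64 * (Δ ^ 4 / 4 * r ^ (4 * m + 8))) := by ring
      _ ≤ Δ ^ 4 / 4 * r ^ (7 + 2 * A + c + a) := h8
      _ = Δ ^ 2 * ((Δ * r ^ (2 + a)) * (Δ * r) / 4) * r ^ (4 + 2 * A + c) := by ring
      _ ≤ _ := by gcongr
  · have h8 := gain' (e := 7 + 2 * A + c + a) (e' := 4 * m) (c := 4) (Q := Δ ^ 4 / 4) hr0 hr1 hKr hK0 (by norm_num) (by norm_num)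
      (by positivity) (by omega)
    have hH0 := h.hH.le
    rw [hwd]
    calc K * (H * (Δ * r ^ m) ^ 4) = H * (K * (4 * (Δ ^ 4 / 4 * r ^ (4 * m)))) := by ring
      _ ≤ H * (Δ ^ 4 / 4 * r ^ (7 + 2 * A + c + a)) := mul_le_mul_of_nonneg_left h8 hH0
      _ = H * (Δ ^ 2 * ((Δ * r ^ (2 + a)) * (Δ * r) / 4) * r ^ (4 + 2 * A + c)) := by ring
      _ ≤ _ := by gcongr

end

end Pool.Agent.Helper82.QG
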