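import Pool.Agent.Helper82.QG.A6

/-!
# QG-A7: the system of a thin slab
-/

open MeasureTheory Real Set Filter Topology

set_option autoImplicit false

namespace Pool.Agent.Helper82.QG

open Pool.Agent.Helper22.AE
open Pool.Agent.Helper92.GC
open Pool.Agent.Helper22.AC (IsWt sep Sys)
open Pool.Agent.Helper60.DC (Sys3)
open Pool.Agent.Helper93.ED (Sys4 wp int_wp n20)

/-- the exponential sum with the phases `u t², u t³, u t⁴` -/
noncomputable def hc (L : Fm) (a : ℤ × ℤ → ℂ) (G : Finset (ℤ × ℤ)) : Vr → ℂ := hq G a (pw L 2) (pw L 3) (pw L 4)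

theorem shift_div (M l b j₀ j : ℕ) (hM : 1 ≤ M) :
    (M ^ (l + b) * j₀ + j) / M ^ b = M ^ l * j₀ + j / M ^ b := by
  have h : M ^ (l + b) * j₀ + j = M ^ b * (M ^ l * j₀) + j := by
    rw [pow_add]
    ring
  rw [h, Nat.mul_add_div (pow_pos hM b)]

theorem sep_shift {x i j : ℕ} (h : sep i j) : sep (x + i) (x + j) := by
  unfold Pool.Agent.Helper22.AC.sep at *
  omega

/-- the arc number `j` of `N` splits into the `M` arcs `M j + r` of `N M` -/
theorem hc_split (L : Fm) (o : ℝ) (a : ℤ × ℤ → ℂ) (S : Finset (ℤ × ℤ)) (N j : ℕ) {M : ℕ} (hM : 1 ≤ M) (ω : Vr) :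
    hc L a (arl L o S N j) ω = ∑ r ∈ Finset.range M, hc L a (arl L o S (N * M) (M * j + r)) ω := by
  classical
  unfold hc hq
  have key : ∀ k : ℤ × ℤ, ⌊((N * M : ℕ) : ℝ) * ((tl L k + o) / 12)⌋₊ / M = ⌊(N : ℝ) * ((tl L k + o) / 12)⌋₊ := by
    intro k
    have h : ((M : ℕ) : ℝ) ≠ 0 := by
      have : 0 < M := hM
      exact_mod_cast this.ne'
    rw [← Nat.floor_div_natCast]
    congr 1
    push_cast
    field_simp
  have hmap : ∀ k ∈ arl L o S N j, ⌊((N * M : ℕ) : ℝ) * ((tl L k + o) / 12)⌋₊ % M ∈ Finset.range M := fun k _ =>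
    Finset.mem_range.2 (Nat.mod_lt _ hM)
  rw [← Finset.sum_fiberwise_of_maps_to hmap]
  refine Finset.sum_congr rfl fun r hr => ?_
  refine Finset.sum_congr ?_ fun _ _ => rfl
  ext k
  rw [Finset.mem_filter, mem_arl, mem_arl]
  have h1 := key k
  have h2 := Nat.div_add_mod ⌊((N * M : ℕ) : ℝ) * ((tl L k + o) / 12)⌋₊ M
  have h3 := Finset.mem_range.1 hr
  constructor
  · rintro ⟨⟨h4, h5⟩, h6⟩
    refine ⟨h4, ?_⟩
    rw [h1, h5, h6] at h2
    exact h2.symm
  · rintro ⟨h4, h5⟩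
    rw [h5] at h1 ⊢
    refine ⟨⟨h4, ?_⟩, ?_⟩
    · rw [← h1, Nat.mul_add_div hM, Nat.div_eq_of_lt h3, add_zero]
    · rw [Nat.mul_add_mod, Nat.mod_eq_of_lt h3]

theorem mem2 {L : Fm} {o : ℝ} {S : Finset (ℤ × ℤ)} {N M l s idx n : ℕ} {k : ℤ × ℤ} (h : k ∈ arl L o S (N * M ^ (l + 1 + s)) idx) (hn : idx = n) :
    k ∈ S ∧ ix (N * M ^ l) M (1 + s) (tl L k + o) = n := by
  rw [mem_arl] at h
  refine ⟨h.1, ?_⟩
  rw [← hn, ← h.2]
  unfold ix
  have e : N * M ^ l * M ^ (1 + s) = N * M ^ (l + 1 + s) := by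
    rw [mul_assoc, ← pow_add, add_assoc]
  rw [e]

section
variable {X₁ X₂ X₃ : ℝ} {v w z : ℝ → ℝ} {L : Fm} {o H lam ρ η : ℝ} {N M m : ℕ} {S : Finset (ℤ × ℤ)}

theorem Ctx.down (h : Ctx X₁ X₂ X₃ v w z L o H lam ρ η N M m S) {l : ℕ} (hl : l ≤ m) :
    Ctx X₁ X₂ X₃ v w z L o H lam ρ η (N * M ^ l) M (m - l) S := by
  have hM1 := h.M1
  refine ⟨h.hv, h.hw, h.hz, h.hX₁, h.hX₂, h.hX₃, h.hH, h.hlam, h.pos, h.hη,
    Nat.one_le_iff_ne_zero.2 (Nat.mul_ne_zero (by have := h.hN; omega) (pow_pos hM1 l).ne'), h.hM, h.hS, h.slab, ?_, ?_⟩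
  · refine h.thin.trans (pow_le_pow_of_le_one (by positivity) ?_ (by omega))
    have hM0 : (0 : ℝ) < M := by exact_mod_cast hM1
    rw [div_le_one hM0]
    exact_mod_cast hM1
  · have e : wd (N * M ^ l) M (m - l) = wd N M m := by
      unfold wd
      push_cast
      rw [mul_assoc, ← pow_add]
      congr 4
      omega
    rw [e]
    exact h.large

/-- the product of the integrand with the weights -/
theorem tri18 (av : ℤ × ℤ → ℂ) (B B' J : Finset (ℤ × ℤ)) (ω : Vr) :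
    hc L av B ω * (starRingEnd ℂ) (hc L av B' ω) * ((‖hc L av J ω‖ ^ 18 : ℝ) : ℂ) = tri L av B B' J J J ω := by
  unfold tri hc
  push_cast
  ring

theorem tri14 (av : ℤ × ℤ → ℂ) (B B' G J : Finset (ℤ × ℤ)) (ω : Vr) :
    (‖hc L av J ω‖ ^ 14 : ℝ) • (hc L av B ω * (starRingEnd ℂ) (hc L av B' ω) * ((‖hc L av G ω‖ ^ 4 : ℝ) : ℂ)) =
      tri L av B B' G J J ω := by
  unfold tri hc
  rw [Complex.real_smul]
  push_cast
  ring

theorem tri8 (av : ℤ × ℤ → ℂ) (B B' G J : Finset (ℤ × ℤ)) (ω : Vr) :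
    (‖hc L av J ω‖ ^ 8 : ℝ) • (hc L av B ω * (starRingEnd ℂ) (hc L av B' ω) * ((‖hc L av G ω‖ ^ 10 : ℝ) : ℂ)) =
      tri L av B B' G G J ω := by
  unfold tri hc
  rw [Complex.real_smul]
  push_cast
  ring

theorem tri8' (av : ℤ × ℤ → ℂ) (B B' G₁ G₂ J : Finset (ℤ × ℤ)) (ω : Vr) :
    (‖hc L av J ω‖ ^ 8 : ℝ) • (hc L av B ω * (starRingEnd ℂ) (hc L av B' ω) *
      ((‖hc L av G₁ ω‖ ^ 4 * ‖hc L av G₂ ω‖ ^ 6 : ℝ) : ℂ)) = tri L av B B' G₁ G₂ J ω := by
  unfold tri hc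
  rw [Complex.real_smul]
  push_cast
  ring

theorem hc_meas (av : ℤ × ℤ → ℂ) (G : Finset (ℤ × ℤ)) : Measurable (hc L av G) := (hq_cont _ _ _ _ _).measurable

theorem sys4 (h : Ctx X₁ X₂ X₃ v w z L o H lam ρ η N M m S) (av : ℤ × ℤ → ℂ) (j₀ : ℕ) :
    Sys4 (mu3 v w z) M m (fun s j => hc L av (arl L o S (N * M ^ s) (M ^ s * j₀ + j))) := by
  have hM1 := h.M1
  have hadd : ∀ s j : ℕ, ∀ ω : Vr, hc L av (arl L o S (N * M ^ s) (M ^ s * j₀ + j)) ω =
      ∑ r ∈ Finset.range M, hc L av (arl L o S (N * M ^ (s + 1)) (M ^ (s + 1) * j₀ + (M * j + r))) ω := by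
    intro s j ω
    rw [hc_split L o av S _ _ hM1]
    refine Finset.sum_congr rfl fun r _ => ?_
    have e : M * (M ^ s * j₀ + j) + r = M ^ (s + 1) * j₀ + (M * j + r) := by
      rw [pow_succ]
      ring
    have e2 : N * M ^ s * M = N * M ^ (s + 1) := by
      rw [mul_assoc, ← pow_succ]
    rw [e, e2]
  have hadd2 : ∀ a i s j : ℕ, ∀ ω : Vr, hc L av (arl L o S (N * M ^ (a + 1 + s)) (M ^ (a + 1 + s) * j₀ + (M ^ s * i + j))) ω =
      ∑ r ∈ Finset.range M, hc L av (arl L o S (N * M ^ (a + 1 + (s + 1))) (M ^ (a + 1 + (s + 1)) * j₀ + (M ^ (s + 1) * i + (M * j + r)))) ω := by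
    intro a i s j ω
    rw [hadd]
    refine Finset.sum_congr rfl fun r _ => ?_
    have e : M * (M ^ s * i + j) + r = M ^ (s + 1) * i + (M * j + r) := by
      rw [pow_succ]
      ring
    rw [e, ← add_assoc (a + 1) s 1]
  have hbdd : ∀ G : Finset (ℤ × ℤ), ∃ B : ℝ, ∀ ω, ‖hc L av G ω‖ ≤ B := fun G => ⟨_, hq_norm_le G av _ _ _⟩
  -- indices
  have hR6 : ∀ {a b i j : ℕ}, i / M = j / M ^ (b + 1) →
      (M ^ (a + 1) * j₀ + i) / M = (M ^ (a + 1 + b) * j₀ + j) / M ^ (b + 1) := by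
    intro a b i j hij
    have e1 := shift_div M a 1 j₀ i hM1
    have e2 := shift_div M a (b + 1) j₀ j hM1
    have e3 : a + (b + 1) = a + 1 + b := by ring
    rw [pow_one] at e1
    rw [e3] at e2
    rw [e1, e2, hij]
  have hR5 : ∀ {a b i j : ℕ}, sep i (j / M ^ b) → sep (M ^ (a + 1) * j₀ + i) ((M ^ (a + 1 + b) * j₀ + j) / M ^ b) := by
    intro a b i j hij
    rw [shift_div M (a + 1) b j₀ j hM1]
    exact sep_shift hij
  have htop : ∀ {s J r : ℕ}, r < M ^ s → (M ^ s * J + r) / M ^ s = J := by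
    intro s J r hr
    rw [Nat.mul_add_div (pow_pos hM1 s), Nat.div_eq_of_lt hr, add_zero]
  have hidx : ∀ l s i r : ℕ, M ^ (l + s) * j₀ + (M ^ s * i + r) = M ^ s * (M ^ l * j₀ + i) + r := by
    intro l s i r
    rw [pow_add]
    ring
  refine ⟨fun s j => hc_meas _ _, fun s j => hbdd _, fun s _ j _ ω => hadd s j ω, ?_, ?_, ?_⟩
  · intro l b c hcb hlb hlc j hj i hi i' hi' hji hii hsep hs'
    simp only [tri18]
    refine caseA (h.down (l := l) (by omega)) (b := b) (c := c) (n := M ^ (l + 1 + c) * j₀ + i) (n' := M ^ (l + 1 + c) * j₀ + i')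
      (nJ := M ^ (l + 1 + b) * j₀ + j) hcb (by omega) (by omega) av (fun x hx => mem2 hx rfl) (fun x hx => mem2 hx rfl)
      (fun x hx => mem2 hx rfl) ?_ ?_ ?_ (sep_shift hs')
    · have e1 := shift_div M l (b + 1) j₀ j hM1
      have e2 := shift_div M l (c + 1) j₀ i hM1
      have e3 : l + (b + 1) = l + 1 + b := by ring
      have e4 : l + (c + 1) = l + 1 + c := by ring
      rw [e3] at e1
      rw [e4] at e2
      rw [e1, e2, hji]
    · rw [shift_div M (l + 1) c j₀ i hM1, shift_div M (l + 1) c j₀ i' hM1, hii]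
    · rw [shift_div M (l + 1) c j₀ i hM1, shift_div M (l + 1) b j₀ j hM1]
      exact sep_shift hsep
  · intro l b₀ D hD hlb hlD i hi j hj hij hsij
    refine ⟨fun s j => hc_meas _ _, fun s j => hbdd _, fun s _ j _ ω => hadd2 l i s j ω, ?_⟩
    intro a b c hcb hab hac k hk i₁ hi₁ i₂ hi₂ hki hii hsep hs'
    rw [int_wp 14 (hc_meas av _)]
    simp only [tri14]
    refine caseB (h.down (l := l) (by omega)) (b₀ := b₀) (D := D) (a := a) (b := b) (c := c)
      (n := M ^ (a + 1 + c) * (M ^ (l + 1) * j₀ + i) + i₁) (n' := M ^ (a + 1 + c) * (M ^ (l + 1) * j₀ + i) + i₂)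
      (nk := M ^ (a + 1 + b) * (M ^ (l + 1) * j₀ + i) + k) (nJ := M ^ (l + 1 + b₀) * j₀ + j) hD (by omega) hcb hab hac av
      (fun x hx => mem2 hx (hidx _ _ _ _)) (fun x hx => mem2 hx (hidx _ _ _ _)) (fun x hx => mem2 hx (hidx _ _ _ _))
      (fun x hx => mem2 hx rfl) ?_ ?_ ?_ (sep_shift hs') ?_ ?_
    · have e1 := shift_div M a (b + 1) (M ^ (l + 1) * j₀ + i) k hM1
      have e2 := shift_div M a (c + 1) (M ^ (l + 1) * j₀ + i) i₁ hM1
      have e3 : a + (b + 1) = a + 1 + b := by ring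
      have e4 : a + (c + 1) = a + 1 + c := by ring
      rw [e3] at e1
      rw [e4] at e2
      rw [e1, e2, hki]
    · rw [shift_div M (a + 1) c _ i₁ hM1, shift_div M (a + 1) c _ i₂ hM1, hii]
    · rw [shift_div M (a + 1) c _ i₁ hM1, shift_div M (a + 1) b _ k hM1]
      exact sep_shift hsep
    · rw [htop hi₁]
      exact hR5 hsij
    · rw [htop hi₁]
      exact hR6 hij
  · intro l b₀ D hD hlb hlD i hi j hj hij hsij
    refine ⟨fun s j => hc_meas _ _, fun s j => hbdd _, fun s _ j _ ω => hadd2 l i s j ω, ?_, ?_⟩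
    · intro a b c hcb hab hac k hk i₁ hi₁ i₂ hi₂ hki hii hsep hs'
      rw [int_wp 8 (hc_meas av _)]
      simp only [tri8]
      refine caseC (h.down (l := l) (by omega)) (b₀ := b₀) (D := D) (a := a) (b := b) (c := c)
        (n := M ^ (a + 1 + c) * (M ^ (l + 1) * j₀ + i) + i₁) (n' := M ^ (a + 1 + c) * (M ^ (l + 1) * j₀ + i) + i₂)
        (nk := M ^ (a + 1 + b) * (M ^ (l + 1) * j₀ + i) + k) (nJ := M ^ (l + 1 + b₀) * j₀ + j) hD (by omega) hcb hab hac av
        (fun x hx => mem2 hx (hidx _ _ _ _)) (fun x hx => mem2 hx (hidx _ _ _ _)) (fun x hx => mem2 hx (hidx _ _ _ _))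
        (fun x hx => mem2 hx rfl) ?_ ?_ ?_ (sep_shift hs') ?_ ?_
      · have e1 := shift_div M a (b + 1) (M ^ (l + 1) * j₀ + i) k hM1
        have e2 := shift_div M a (c + 1) (M ^ (l + 1) * j₀ + i) i₁ hM1
        have e3 : a + (b + 1) = a + 1 + b := by ring
        have e4 : a + (c + 1) = a + 1 + c := by ring
        rw [e3] at e1
        rw [e4] at e2
        rw [e1, e2, hki]
      · rw [shift_div M (a + 1) c _ i₁ hM1, shift_div M (a + 1) c _ i₂ hM1, hii]
      · rw [shift_div M (a + 1) c _ i₁ hM1, shift_div M (a + 1) b _ k hM1]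
        exact sep_shift hsep
      · rw [htop hi₁]
        exact hR5 hsij
      · rw [htop hi₁]
        exact hR6 hij
    · intro a b A b' c haA hcb hAb hAc hab J hJ k hk i₁ hi₁ i₂ hi₂ hki hii hsep hs' hiJ hsiJ
      rw [int_wp 8 (hc_meas av _)]
      simp only [tri8']
      obtain ⟨e₀, he₀⟩ : ∃ e₀, A = a + 1 + e₀ := ⟨A - (a + 1), by omega⟩
      have e4 : A - a = e₀ + 1 := by omega
      have e5 : A - (a + 1) = e₀ := by omega
      refine caseD (h.down (l := l) (by omega)) (b₀ := b₀) (D := D) (a := a) (b := b) (A := A) (b' := b') (c := c)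
        (n := M ^ (A + 1 + c) * (M ^ (l + 1) * j₀ + i) + i₁) (n' := M ^ (A + 1 + c) * (M ^ (l + 1) * j₀ + i) + i₂)
        (nk := M ^ (A + 1 + b') * (M ^ (l + 1) * j₀ + i) + k) (nK := M ^ (a + 1 + b) * (M ^ (l + 1) * j₀ + i) + J)
        (nJ := M ^ (l + 1 + b₀) * j₀ + j) hD (by omega) haA hcb hAb hAc hab av
        (fun x hx => mem2 hx (hidx _ _ _ _)) (fun x hx => mem2 hx (hidx _ _ _ _)) (fun x hx => mem2 hx (hidx _ _ _ _))
        (fun x hx => mem2 hx (hidx _ _ _ _)) (fun x hx => mem2 hx rfl) ?_ ?_ ?_ (sep_shift hs') ?_ ?_ ?_ ?_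
      · have e1 := shift_div M A (b' + 1) (M ^ (l + 1) * j₀ + i) k hM1
        have e2 := shift_div M A (c + 1) (M ^ (l + 1) * j₀ + i) i₁ hM1
        have e3 : A + (b' + 1) = A + 1 + b' := by ring
        have e4 : A + (c + 1) = A + 1 + c := by ring
        rw [e3] at e1
        rw [e4] at e2
        rw [e1, e2, hki]
      · rw [shift_div M (A + 1) c _ i₁ hM1, shift_div M (A + 1) c _ i₂ hM1, hii]
      · rw [shift_div M (A + 1) c _ i₁ hM1, shift_div M (A + 1) b' _ k hM1]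
        exact sep_shift hsep
      · rw [htop hi₁]
        exact hR5 hsij
      · rw [htop hi₁]
        exact hR6 hij
      · have e2 := shift_div M A (c + 1) (M ^ (l + 1) * j₀ + i) i₁ hM1
        have e6 : A + (c + 1) = A + 1 + c := by ring
        rw [e6] at e2
        have e7 := shift_div M a (A - a) (M ^ (l + 1) * j₀ + i) (i₁ / M ^ (c + 1)) hM1
        have e8 : a + (A - a) = A := by omega
        rw [e8] at e7
        have e9 := shift_div M a (b + 1) (M ^ (l + 1) * j₀ + i) J hM1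
        have e10 : a + (b + 1) = a + 1 + b := by ring
        rw [e10] at e9
        rw [e2, e7, e9, hiJ]
      · have e2 := shift_div M A (c + 1) (M ^ (l + 1) * j₀ + i) i₁ hM1
        have e6 : A + (c + 1) = A + 1 + c := by ring
        rw [e6] at e2
        have e7 := shift_div M (a + 1) (A - (a + 1)) (M ^ (l + 1) * j₀ + i) (i₁ / M ^ (c + 1)) hM1
        have e8 : a + 1 + (A - (a + 1)) = A := by omega
        rw [e8] at e7
        rw [e2, e7, shift_div M (a + 1) b _ J hM1]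
        exact sep_shift hsiJ

end

end Pool.Agent.Helper82.QG
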