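import Pool.Agent.Helper82.QG.A7
import Pool.Agent.Helper75.TW.R2

/-!
# QG-A8: decoupling for thin slabs, passage to the region
-/

open MeasureTheory Real Set Filter Topology

set_option autoImplicit false

namespace Pool.Agent.Helper82.QG

open Pool.Agent.Helper22.AE
open Pool.Agent.Helper92.GC
open Pool.Agent.Helper22.AC (IsWt sep)
open Pool.Agent.Helper93.ED (n20 n20_nonneg n20_sum_le decoupling4)
open Pool.Agent.Helper75.TW (m20 IsMul20 m20_filter mul20_half mul20_half_lt mul20_comp mul20_congr)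

theorem arl_one {L : Fm} {o : ℝ} {B : Finset (ℤ × ℤ)} (hB : ∀ k ∈ B, tl L k + o < 12) : arl L o B 1 0 = B := by
  classical
  unfold arl
  rw [Finset.filter_eq_self]
  intro k hk
  have h6 := hB k hk
  rw [Nat.floor_eq_zero]
  push_cast
  linarith

/-- decoupling of a thin slab in `N₁` blocks of depth `m` -/
theorem slab4 {ε lam : ℝ} (hε : 0 < ε) (hl : 1 ≤ lam) : ∃ M : ℕ, 2 ≤ M ∧ ∃ C : ℝ, 1 ≤ C ∧
    ∀ (m N₁ : ℕ) (L : Fm) (o H ρ X₁ X₂ X₃ η : ℝ) (v w z : ℝ → ℝ) (a : ℤ × ℤ → ℂ) (B : Finset (ℤ × ℤ)), 0 < H →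
      (∀ k ∈ B, 0 ≤ tl L k + o ∧ tl L k + o < 12) → 0 < X₁ → 0 < X₂ → 0 < X₃ → Rgl L H lam ρ B → IsWt X₁ v → IsWt X₂ w → IsWt X₃ z → 0 ≤ η →
      (∀ k ∈ B, ∀ k' ∈ B, |ul L k - ul L k'| ≤ η * H) →
      η ≤ (1 / (M : ℝ)) ^ (4 * m + 8) → 1 / X₃ + 4 * ρ / X₂ + 6 * ρ ^ 2 / X₁ < H * (12 / (M : ℝ) ^ (N₁ * m)) ^ 4 →
      n20 (mu3 v w z) (hc L a B) ≤ C ^ N₁ * (M : ℝ) ^ (ε * ((N₁ * m : ℕ) : ℝ)) *
        ∑ r ∈ Finset.range (M ^ (N₁ * m)), n20 (mu3 v w z) (hc L a (arl L o B (M ^ (N₁ * m)) r)) := by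
  obtain ⟨M0, hM0, hdec⟩ := decoupling4 hε
  obtain ⟨K₁, hK₁⟩ : ∃ K : ℕ, 800 * lam ^ 2 ≤ K := exists_nat_ge _
  obtain ⟨M, hMd⟩ : ∃ M : ℕ, M = max (max M0 2) K₁ := ⟨_, rfl⟩
  have hM2 : 2 ≤ M := by rw [hMd]; exact (le_max_right _ _).trans (le_max_left _ _)
  have hMM0 : M0 ≤ M := by rw [hMd]; exact (le_max_left _ _).trans (le_max_left _ _)
  have hMK1 : K₁ ≤ M := by rw [hMd]; exact le_max_right _ _
  have hMK : 800 * lam ^ 2 ≤ (M : ℝ) := by
    have h1 : (K₁ : ℝ) ≤ M := by exact_mod_cast hMK1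
    linarith
  obtain ⟨C, hC, hd⟩ := hdec M hMM0
  refine ⟨M, hM2, C, hC, ?_⟩
  intro m N₁ L o H ρ X₁ X₂ X₃ η v w z a B hH hpos hX₁ hX₂ hX₃ hB hv hw hz hη0 hslab hη hX
  have hM1 : 1 ≤ M := by omega
  have hMr : (1 : ℝ) ≤ M := by exact_mod_cast hM1
  have hMpos : (0 : ℝ) < M := by linarith
  have hprob := mu3_prob hv hw hz
  have key : ∀ i : ℕ, i ≤ N₁ → n20 (mu3 v w z) (hc L a B) ≤
      C ^ i * (M : ℝ) ^ (ε * ((i * m : ℕ) : ℝ)) *
        ∑ r ∈ Finset.range (M ^ (i * m)), n20 (mu3 v w z) (hc L a (arl L o B (M ^ (i * m)) r)) := by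
    intro i
    induction i with
    | zero =>
      intro _
      have h1 := arl_one (L := L) (o := o) (B := B) (fun k hk => (hpos k hk).2)
      simp [h1]
    | succ i ih =>
      intro hi
      have h1 := ih (by omega)
      refine h1.trans ?_
      have hlev : i * m + m ≤ N₁ * m := by
        have h2 : (i + 1) * m ≤ N₁ * m := Nat.mul_le_mul_right m hi
        rwa [Nat.succ_mul] at h2
      have hN1 : 1 ≤ M ^ (i * m) := Nat.one_le_iff_ne_zero.2 (pow_pos hM1 _).ne'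
      have hctx : Ctx X₁ X₂ X₃ v w z L o H lam ρ η (M ^ (i * m)) M m B := by
        refine ⟨hv, hw, hz, hX₁, hX₂, hX₃, hH, hl, fun k hk => (hpos k hk).1, hη0, hN1, hMK, hB, hslab, hη, ?_⟩
        refine hX.trans_le (mul_le_mul_of_nonneg_left ?_ hH.le)
        have h2 : ((M ^ (i * m) : ℕ) : ℝ) * (M : ℝ) ^ m ≤ (M : ℝ) ^ (N₁ * m) := by
          push_cast
          rw [← pow_add]
          exact pow_le_pow_right₀ hMr hlev
        have h3 : (0 : ℝ) < ((M ^ (i * m) : ℕ) : ℝ) * (M : ℝ) ^ m := by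
          push_cast
          positivity
        have h4 : 12 / (M : ℝ) ^ (N₁ * m) ≤ wd (M ^ (i * m)) M m :=
          div_le_div_of_nonneg_left (by norm_num) h3 h2
        exact pow_le_pow_left₀ (by positivity) h4 4
      have hstep : ∀ s : ℕ, n20 (mu3 v w z) (hc L a (arl L o B (M ^ (i * m)) s)) ≤
          C * (M : ℝ) ^ (ε * (m : ℝ)) * ∑ r' ∈ Finset.range (M ^ m),
            n20 (mu3 v w z) (hc L a (arl L o B (M ^ ((i + 1) * m)) (M ^ m * s + r'))) := by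
        intro s
        have h2 := hd _ (mu3 v w z) m _ (sys4 hctx a s)
        simp only [add_zero, pow_zero, one_mul, mul_one] at h2
        have e : M ^ (i * m) * M ^ m = M ^ ((i + 1) * m) := by
          rw [← pow_add, Nat.succ_mul]
        rw [e] at h2
        exact h2
      calc C ^ i * (M : ℝ) ^ (ε * ((i * m : ℕ) : ℝ)) * ∑ r ∈ Finset.range (M ^ (i * m)),
              n20 (mu3 v w z) (hc L a (arl L o B (M ^ (i * m)) r))
          ≤ C ^ i * (M : ℝ) ^ (ε * ((i * m : ℕ) : ℝ)) * ∑ r ∈ Finset.range (M ^ (i * m)),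
              (C * (M : ℝ) ^ (ε * (m : ℝ)) * ∑ r' ∈ Finset.range (M ^ m),
                n20 (mu3 v w z) (hc L a (arl L o B (M ^ ((i + 1) * m)) (M ^ m * r + r')))) := by
            apply mul_le_mul_of_nonneg_left (Finset.sum_le_sum fun r _ => hstep r)
            positivity
        _ = C ^ (i + 1) * (M : ℝ) ^ (ε * (((i + 1) * m : ℕ) : ℝ)) *
              ∑ r ∈ Finset.range (M ^ (i * m)), ∑ r' ∈ Finset.range (M ^ m),
                n20 (mu3 v w z) (hc L a (arl L o B (M ^ ((i + 1) * m)) (M ^ m * r + r'))) := by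
            rw [← Finset.mul_sum, pow_succ]
            have h3 : (M : ℝ) ^ (ε * (((i + 1) * m : ℕ) : ℝ)) =
                (M : ℝ) ^ (ε * ((i * m : ℕ) : ℝ)) * (M : ℝ) ^ (ε * (m : ℝ)) := by
              rw [← Real.rpow_add hMpos]
              congr 1
              push_cast
              ring
            rw [h3]
            ring
        _ = _ := by
            congr 1
            have h4 : M ^ ((i + 1) * m) = M ^ (i * m) * M ^ m := by
              rw [← pow_add, Nat.succ_mul]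
            rw [show Finset.range (M ^ ((i + 1) * m)) = Finset.range (M ^ (i * m) * M ^ m) by
              rw [h4], Pool.Agent.Helper22.AC.sum_range_mul']
  exact key N₁ le_rfl

theorem hq_slice (S : Finset (ℤ × ℤ)) (a : ℤ × ℤ → ℂ) (f g h : ℤ × ℤ → ℝ) (c : ℝ × ℝ) (r : ℝ × ℝ × ℝ) :
    hq S a f g h (c, r) = tp S (fun k => a k * ee (r.1 * f k + r.2.1 * g k + r.2.2 * h k)) c := by
  unfold hq tp
  refine Finset.sum_congr rfl fun k _ => ?_
  change a k * ee (dt k c + r.1 * f k + r.2.1 * g k + r.2.2 * h k) = _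
  rw [show dt k c + r.1 * f k + r.2.1 * g k + r.2.2 * h k = dt k c + (r.1 * f k + r.2.1 * g k + r.2.2 * h k) by ring, ee_add]
  ring

theorem slice20 {X₁ X₂ X₃ : ℝ} {v w z : ℝ → ℝ} (hv : IsWt X₁ v) (hw : IsWt X₂ w) (hz : IsWt X₃ z) (S : Finset (ℤ × ℤ))
    (a : ℤ × ℤ → ℂ) (f g h : ℤ × ℤ → ℝ) :
    ∫ q, ‖hq S a f g h q‖ ^ 20 ∂(mu3 v w z) =
      ∫ r : ℝ × ℝ × ℝ, m20 S (fun k => a k * ee (r.1 * f k + r.2.1 * g k + r.2.2 * h k)) ∂((wm v).prod ((wm w).prod (wm z))) ∧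
    Integrable (fun r : ℝ × ℝ × ℝ => m20 S (fun k => a k * ee (r.1 * f k + r.2.1 * g k + r.2.2 * h k)))
      ((wm v).prod ((wm w).prod (wm z))) := by
  have hp0 := tq_prob
  have hp1 := wm_prob hv
  have hp2 := wm_prob hw
  have hp3 := wm_prob hz
  have hpr := mu3_prob hv hw hz
  have hint : Integrable (fun q => ‖hq S a f g h q‖ ^ 20) (mu3 v w z) := by
    refine Integrable.of_bound (C := (∑ k ∈ S, ‖a k‖) ^ 20) ((hq_cont S a f g h).norm.pow 20).aestronglyMeasurable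
      (Eventually.of_forall fun q => ?_)
    rw [Real.norm_of_nonneg (by positivity)]
    exact pow_le_pow_left₀ (norm_nonneg _) (hq_norm_le S a f g h q) 20
  have e : (fun r : ℝ × ℝ × ℝ => m20 S (fun k => a k * ee (r.1 * f k + r.2.1 * g k + r.2.2 * h k))) = fun r =>
      ∫ c, ‖hq S a f g h (c, r)‖ ^ 20 ∂(volume.restrict Tq) := by
    funext r
    unfold m20
    refine integral_congr_ae (Eventually.of_forall fun c => ?_)
    simp only
    rw [hq_slice]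
  rw [e]
  unfold mu3 at hint ⊢
  exact ⟨integral_prod_symm _ hint, hint.integral_prod_right⟩

theorem n20_le_of_m20 {X₁ X₂ X₃ : ℝ} {v w z : ℝ → ℝ} (hv : IsWt X₁ v) (hw : IsWt X₂ w) (hz : IsWt X₃ z) {S S' : Finset (ℤ × ℤ)}
    {a a' : ℤ × ℤ → ℂ} {f g h : ℤ × ℤ → ℝ} {C : ℝ} (hC : 0 ≤ C)
    (hh : ∀ R Y Z : ℝ, m20 S (fun k => a k * ee (R * f k + Y * g k + Z * h k)) ≤
      C ^ 20 * m20 S' (fun k => a' k * ee (R * f k + Y * g k + Z * h k))) :
    n20 (mu3 v w z) (hq S a f g h) ≤ C ^ 2 * n20 (mu3 v w z) (hq S' a' f g h) := by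
  obtain ⟨h1, h2⟩ := slice20 hv hw hz S a f g h
  obtain ⟨h3, h4⟩ := slice20 hv hw hz S' a' f g h
  have h5 : ∫ q, ‖hq S a f g h q‖ ^ 20 ∂(mu3 v w z) ≤ C ^ 20 * ∫ q, ‖hq S' a' f g h q‖ ^ 20 ∂(mu3 v w z) := by
    rw [h1, h3, ← integral_const_mul]
    exact integral_mono h2 (h4.const_mul _) fun r => hh r.1 r.2.1 r.2.2
  have h6 : 0 ≤ ∫ q, ‖hq S a f g h q‖ ^ 20 ∂(mu3 v w z) := integral_nonneg fun _ => by positivity
  have h7 : 0 ≤ ∫ q, ‖hq S' a' f g h q‖ ^ 20 ∂(mu3 v w z) := integral_nonneg fun _ => by positivity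
  unfold Pool.Agent.Helper93.ED.n20
  have h8 := rpow_le_rpow h6 h5 (by norm_num : (0 : ℝ) ≤ 1 / 10)
  rw [mul_rpow (by positivity) h7] at h8
  have h9 : (C ^ 20) ^ (1 / 10 : ℝ) = C ^ 2 := by
    rw [← rpow_natCast, ← rpow_natCast, ← rpow_mul hC]
    norm_num
  rwa [h9] at h8

open Classical in
/-- the slab number `l` -/
noncomputable def sbl (L : Fm) (H Q : ℝ) (S : Finset (ℤ × ℤ)) (l : ℕ) : Finset (ℤ × ℤ) :=
  S.filter (fun k => ⌊ul L k * Q / H⌋₊ = l)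

theorem sbl_iff {L : Fm} {H Q : ℝ} (hH : 0 < H) (hQ : 0 < Q) {k : ℤ × ℤ} (hk : 0 ≤ ul L k) (l : ℕ) :
    ⌊ul L k * Q / H⌋₊ = l ↔ H * l / Q ≤ ul L k ∧ ul L k < H * (l + 1) / Q := by
  rw [Nat.floor_eq_iff (by positivity), le_div_iff₀ hH, div_lt_iff₀ hH, div_le_iff₀ hQ, lt_div_iff₀ hQ]
  constructor
  · rintro ⟨h1, h2⟩
    exact ⟨by linarith, by linarith⟩
  · rintro ⟨h1, h2⟩
    exact ⟨by linarith, by linarith⟩

open Classical in
theorem sbl_mul {L : Fm} {H Q : ℝ} (hH : 0 < H) (hQ : 0 < Q) {S : Finset (ℤ × ℤ)} (hS : ∀ k ∈ S, 0 ≤ ul L k)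
    (l : ℕ) (A : ℤ × ℤ → ℂ) : m20 (sbl L H Q S l) A ≤ (50 * 50 : ℝ) ^ 20 * m20 S A := by
  have h1 := mul20_comp (mul20_half S L.1.1 L.1.2 (H * l / Q)) (mul20_half_lt S (-L.1.1) (-L.1.2) (-(H * (l + 1) / Q)))
  have h2 : IsMul20 S (fun k => if ⌊ul L k * Q / H⌋₊ = l then 1 else 0) (50 * 50) := by
    refine mul20_congr (fun k hk => ?_) h1
    have h3 := sbl_iff hH hQ (hS k hk) l
    have h4 : -(H * (l + 1) / Q) < (-L.1.1) * (k.1 : ℝ) + (-L.1.2) * (k.2 : ℝ) ↔ ul L k < H * (l + 1) / Q := by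
      unfold ul
      constructor <;> intro h <;> linarith
    have h4' : H * l / Q ≤ L.1.1 * (k.1 : ℝ) + L.1.2 * (k.2 : ℝ) ↔ H * l / Q ≤ ul L k := Iff.rfl
    by_cases h5 : H * l / Q ≤ ul L k
    · by_cases h6 : ul L k < H * (l + 1) / Q
      · rw [if_pos (h4'.2 h5), if_pos (h4.2 h6), if_pos (h3.2 ⟨h5, h6⟩), one_mul]
      · rw [if_neg (fun h => h6 (h4.1 h)), if_neg (fun h => h6 (h3.1 h).2), mul_zero]
    · rw [if_neg (fun h => h5 (h4'.1 h)), if_neg (fun h => h5 (h3.1 h).1), zero_mul]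
  refine le_trans (le_of_eq ?_) (h2.2 A)
  have h6 := m20_filter S (fun k => ⌊ul L k * Q / H⌋₊ = l) A
  unfold sbl
  convert h6

open Classical in
theorem sbl_arl (L : Fm) (o H Q : ℝ) (S : Finset (ℤ × ℤ)) (N r l : ℕ) :
    arl L o (sbl L H Q S l) N r = sbl L H Q (arl L o S N r) l := by
  unfold arl sbl
  rw [Finset.filter_filter, Finset.filter_filter]
  refine Finset.filter_congr fun k _ => ?_
  exact and_comm

theorem main20 {lam ρ D : ℝ} {M Λ E P : ℕ} (hlam : 1 ≤ lam) (hΛ : lam < Λ) (hM : 1 ≤ M) {L : Fm} {o H X₁ X₂ X₃ : ℝ} {v w z : ℝ → ℝ}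
    {a : ℤ × ℤ → ℂ} {S : Finset (ℤ × ℤ)} (hH : 0 < H) (hS : Rgl L H lam ρ S) (hv : IsWt X₁ v) (hw : IsWt X₂ w) (hz : IsWt X₃ z) (hD : 0 ≤ D)
    (hslab : ∀ B : Finset (ℤ × ℤ), B ⊆ S → (∀ k ∈ B, ∀ k' ∈ B, |ul L k - ul L k'| ≤ (1 / (M : ℝ)) ^ E * H) →
      n20 (mu3 v w z) (hc L a B) ≤ D * ∑ r ∈ Finset.range P, n20 (mu3 v w z) (hc L a (arl L o B P r))) :
    n20 (mu3 v w z) (hc L a S) ≤ (Λ * (M : ℝ) ^ E) ^ (19 / 10 : ℝ) * ((Λ * (M : ℝ) ^ E) *
      (D * ((50 * 50 : ℝ) ^ 2 * ∑ r ∈ Finset.range P, n20 (mu3 v w z) (hc L a (arl L o S P r))))) := by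
  classical
  have hM0 : (0 : ℝ) < M := by exact_mod_cast hM
  have hL0 : (0 : ℝ) < (M : ℝ) ^ E := by positivity
  have hlam0 : 0 < lam := by linarith
  have hprob := mu3_prob hv hw hz
  have hpos : ∀ k ∈ S, 0 < ul L k := fun k hk => lt_of_lt_of_le (by positivity) (hS k hk).1
  have hfl : ∀ k ∈ S, ⌊ul L k * (M : ℝ) ^ E / H⌋₊ ∈ Finset.range (Λ * M ^ E) := by
    intro k hk
    have hΛ0 : 0 < Λ := by
      have : (0 : ℝ) < Λ := by linarith
      exact_mod_cast this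
    rw [Finset.mem_range, Nat.floor_lt' (Nat.mul_ne_zero hΛ0.ne' (pow_pos hM _).ne')]
    rw [div_lt_iff₀ hH]
    push_cast
    have h1 := (hS k hk).2.1
    have h2 : ul L k * (M : ℝ) ^ E ≤ lam * H * (M : ℝ) ^ E := mul_le_mul_of_nonneg_right h1 hL0.le
    have h3 : lam * H * (M : ℝ) ^ E < Λ * (M : ℝ) ^ E * H := by
      have : lam * (H * (M : ℝ) ^ E) < Λ * (H * (M : ℝ) ^ E) := mul_lt_mul_of_pos_right hΛ (by positivity)
      linarith
    linarith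
  have hsum : hc L a S = fun q => ∑ l ∈ Finset.range (Λ * M ^ E), hc L a (sbl L H ((M : ℝ) ^ E) S l) q := by
    funext q
    unfold hc hq sbl
    exact (Finset.sum_fiberwise_of_maps_to hfl _).symm
  rw [hsum]
  refine (n20_sum_le (mu3 v w z) (Λ * M ^ E)
    (fun l => hc L a (sbl L H ((M : ℝ) ^ E) S l))
    (fun l => hc_meas _ _) (fun l => ⟨_, hq_norm_le _ _ _ _ _⟩)).trans ?_
  have hcast : ((Λ * M ^ E : ℕ) : ℝ) = Λ * (M : ℝ) ^ E := by push_cast; rfl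
  rw [hcast]
  apply mul_le_mul_of_nonneg_left _ (by positivity)
  have hterm : ∀ l ∈ Finset.range (Λ * M ^ E),
      n20 (mu3 v w z) (hc L a (sbl L H ((M : ℝ) ^ E) S l)) ≤
      D * ((50 * 50 : ℝ) ^ 2 * ∑ r ∈ Finset.range P, n20 (mu3 v w z) (hc L a (arl L o S P r))) := by
    intro l _
    have hsub : sbl L H ((M : ℝ) ^ E) S l ⊆ S := Finset.filter_subset _ _
    refine (hslab _ hsub ?_).trans ?_
    · intro k hk k' hk'
      unfold sbl at hk hk'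
      rw [Finset.mem_filter] at hk hk'
      have h1 := (sbl_iff hH hL0 (hpos k hk.1).le l).1 hk.2
      have h2 := (sbl_iff hH hL0 (hpos k' hk'.1).le l).1 hk'.2
      have h3 : (1 / (M : ℝ)) ^ E * H = H * (l + 1) / (M : ℝ) ^ E - H * l / (M : ℝ) ^ E := by
        rw [one_div, inv_pow]
        field_simp
        ring
      rw [h3, abs_le]
      constructor <;> linarith [h1.1, h1.2, h2.1, h2.2]
    · apply mul_le_mul_of_nonneg_left _ hD
      rw [Finset.mul_sum]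
      refine Finset.sum_le_sum fun r _ => ?_
      rw [sbl_arl]
      refine n20_le_of_m20 hv hw hz (by norm_num) fun R Y Z => ?_
      apply sbl_mul hH hL0
      intro k hk
      exact (hpos k (mem_arl.1 hk).1).le
  refine (Finset.sum_le_sum hterm).trans ?_
  rw [Finset.sum_const, Finset.card_range, nsmul_eq_mul, hcast]

end Pool.Agent.Helper82.QG
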