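import Pool.Agent.Helper82.QG.Main
import Pool.Agent.Helper60.QL.Defs

/-!
# QG-D20: the region theorem in the form of project QL (fixed partition of `k.2 / k.1`, offset `t₀` in the polynomials)
-/

open MeasureTheory Real Set Filter Topology

set_option autoImplicit false

namespace Pool.Agent.Helper82.QG

open Pool.Agent.Helper22.AE
open Pool.Agent.Helper92.GC (dt tp Tq uu tt arc dd)
open Pool.Agent.Helper22.AC (IsWt)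
open Pool.Agent.Helper93.ED (n20 n20_nonneg)
open Pool.Agent.Helper60.QL (ln)

/-- the forms `k.1`, `k.2 - t₀ k.1` -/
def L0 (t₀ : ℝ) : Fm := ((1, 0), (-t₀, 1))

theorem ul_L0 (t₀ : ℝ) (k : ℤ × ℤ) : ul (L0 t₀) k = uu 0 k := by
  unfold ul L0 uu
  ring

theorem tl_L0 {t₀ : ℝ} {k : ℤ × ℤ} (h : uu 0 k ≠ 0) : tl (L0 t₀) k = tt 0 k - t₀ := by
  have h1 := ul_L0 t₀ k
  unfold tl tt
  rw [h1]
  have e : vl (L0 t₀) k = (k.2 : ℝ) - t₀ * uu 0 k := by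
    unfold vl L0 uu
    ring
  rw [e]
  field_simp

theorem pw_L0 (t₀ : ℝ) (n : ℕ) (k : ℤ × ℤ) : pw (L0 t₀) n k = uu 0 k * (tt 0 k - t₀) ^ n := by
  unfold pw
  rw [ul_L0]
  by_cases h : uu 0 k = 0
  · rw [h, zero_mul, zero_mul]
  · rw [tl_L0 h]

/-- the exponential sum of project QL -/
noncomputable def qs0 (t₀ : ℝ) (S : Finset (ℤ × ℤ)) (a : ℤ × ℤ → ℂ) (q : Vr) : ℂ := ∑ k ∈ S, a k * ee (dt k q.1 + ln t₀ q.2 k)

theorem hq_L0 (t₀ : ℝ) (S : Finset (ℤ × ℤ)) (a : ℤ × ℤ → ℂ) :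
    hq S a (pw (L0 t₀) 2) (pw (L0 t₀) 3) (pw (L0 t₀) 4) = qs0 t₀ S a := by
  funext q
  unfold hq qs0 hE
  refine Finset.sum_congr rfl fun k _ => ?_
  rw [pw_L0, pw_L0, pw_L0]
  congr 2
  unfold Pool.Agent.Helper60.QL.ln
  ring

theorem arl_L0 {t₀ : ℝ} {S : Finset (ℤ × ℤ)} (hS : ∀ k ∈ S, uu 0 k ≠ 0) (N j : ℕ) : arl (L0 t₀) (t₀ + 6) S N j = arc 0 S N j := by
  classical
  unfold arl arc
  refine Finset.filter_congr fun k hk => ?_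
  rw [tl_L0 (hS k hk)]
  have e : tt 0 k - t₀ + (t₀ + 6) = tt 0 k + 6 := by ring
  rw [e]

/-- the region theorem for the fixed partition -/
theorem dec20_t0 {ε lam : ℝ} (hε : 0 < ε) (hl : 1 ≤ lam) : ∃ M : ℕ, 2 ≤ M ∧ ∃ C : ℝ, 1 ≤ C ∧
    ∀ (m : ℕ) (H Y t₀ : ℝ) (v₁ v₂ v₃ : ℝ → ℝ) (a : ℤ × ℤ → ℂ) (S : Finset (ℤ × ℤ)), 0 < H → 0 < Y → |t₀| ≤ 3 →
      IsWt Y v₁ → IsWt Y v₂ → IsWt Y v₃ →
      (∀ k ∈ S, H / lam ≤ uu 0 k ∧ uu 0 k ≤ lam * H ∧ |tt 0 k - t₀| ≤ 1) → C * (M : ℝ) ^ (4 * m) ≤ H * Y →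
      n20 (mu3 v₁ v₂ v₃) (qs0 t₀ S a) ≤ C * (M : ℝ) ^ (ε * (m : ℝ)) *
        ∑ r ∈ Finset.range (M ^ m), n20 (mu3 v₁ v₂ v₃) (qs0 t₀ (arc 0 S (M ^ m) r) a) := by
  obtain ⟨M, hM, C, hC, h⟩ := dec20 hε hl
  refine ⟨M, hM, 3 * C, by linarith, ?_⟩
  intro m H Y t₀ v₁ v₂ v₃ a S hH hY ht hv₁ hv₂ hv₃ hS hX
  have hM0 : (0 : ℝ) < M := by
    have : 0 < M := by omega
    exact_mod_cast this
  have hlam : 0 < lam := by linarith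
  have hne : ∀ k ∈ S, uu 0 k ≠ 0 := fun k hk => (lt_of_lt_of_le (by positivity) (hS k hk).1).ne'
  have h1 := h m (L0 t₀) (t₀ + 6) H 1 Y Y Y v₁ v₂ v₃ a S hH hY hY hY (by norm_num) ?_ ?_ hv₁ hv₂ hv₃ ?_
  · rw [hq_L0] at h1
    simp only [hq_L0, arl_L0 hne] at h1
    refine h1.trans (mul_le_mul_of_nonneg_right (mul_le_mul_of_nonneg_right (by linarith) (by positivity)) ?_)
    exact Finset.sum_nonneg fun _ _ => n20_nonneg _ _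
  · intro k hk
    rw [tl_L0 (hne k hk)]
    have h2 := abs_le.1 (hS k hk).2.2
    have h3 := abs_le.1 ht
    constructor
    · linarith [h2.1, h3.1]
    · linarith [h2.2, h3.2]
  · intro k hk
    rw [ul_L0, tl_L0 (hne k hk)]
    exact hS k hk
  · have e1 : (1 / (M : ℝ) ^ m) ^ 4 = 1 / (M : ℝ) ^ (4 * m) := by
      rw [div_pow, one_pow, ← pow_mul, mul_comm m 4]
    rw [e1, mul_one_div, le_div_iff₀ (by positivity)]
    have e2 : C * (1 / Y + 1 / Y + 1 ^ 2 / Y) * (M : ℝ) ^ (4 * m) = (3 * C * (M : ℝ) ^ (4 * m)) / Y := by ring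
    rw [e2, div_le_iff₀ hY]
    exact hX

end Pool.Agent.Helper82.QG
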