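import Pool.Agent.Helper92.GC.T1
import Pool.Agent.Helper93.ED.E7

/-!
# QG (helper82): decoupling of order twenty for the cone over `(t², t³, t⁴)`, definitions

`L` is a pair of real linear forms, `u = ul L k`, `v = vl L k`, `t = tl L k = v / u`. The sums are `∑ a_k ee (k · c + R f k + Y g k + Z h k)` with the measure
`dc · v₁(R) dR · v₂(Y) dY · v₃(Z) dZ` on `[0,1]² × ℝ³`; `f, g, h = u t², u t³, u t⁴`.
-/

open MeasureTheory Real Set Filter Topology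

set_option autoImplicit false

namespace Pool.Agent.Helper82.QG

open Pool.Agent.Helper22.AE
open Pool.Agent.Helper92.GC
open Pool.Agent.Helper22.AC (IsWt)

/-- a pair of real linear forms -/
abbrev Fm : Type := (ℝ × ℝ) × (ℝ × ℝ)

/-- the first form -/
noncomputable def ul (L : Fm) (k : ℤ × ℤ) : ℝ := L.1.1 * (k.1 : ℝ) + L.1.2 * (k.2 : ℝ)

/-- the second form -/
noncomputable def vl (L : Fm) (k : ℤ × ℤ) : ℝ := L.2.1 * (k.1 : ℝ) + L.2.2 * (k.2 : ℝ)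

/-- the slope -/
noncomputable def tl (L : Fm) (k : ℤ × ℤ) : ℝ := vl L k / ul L k

/-- the phase of degree `n`: `u t^n` -/
noncomputable def pw (L : Fm) (n : ℕ) (k : ℤ × ℤ) : ℝ := ul L k * tl L k ^ n

open Classical in
/-- the part of `S` in the arc number `j` of `N` equal arcs of `t + o ∈ [0, 12)` -/
noncomputable def arl (L : Fm) (o : ℝ) (S : Finset (ℤ × ℤ)) (N j : ℕ) : Finset (ℤ × ℤ) :=
  S.filter (fun k => ⌊(N : ℝ) * ((tl L k + o) / 12)⌋₊ = j)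

/-- the variables: a centre and three parameters -/
abbrev Vr : Type := (ℝ × ℝ) × (ℝ × ℝ × ℝ)

/-- the character -/
noncomputable def hE (k : ℤ × ℤ) (ξ η ζ : ℝ) (q : Vr) : ℂ := ee (dt k q.1 + q.2.1 * ξ + q.2.2.1 * η + q.2.2.2 * ζ)

/-- the exponential sum with three phases -/
noncomputable def hq (S : Finset (ℤ × ℤ)) (a : ℤ × ℤ → ℂ) (f g h : ℤ × ℤ → ℝ) (q : Vr) : ℂ :=
  ∑ k ∈ S, a k * hE k (f k) (g k) (h k) q

/-- the weight as a measure -/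
noncomputable def wm (v : ℝ → ℝ) : Measure ℝ := volume.withDensity fun R => ENNReal.ofReal (v R)

/-- the measure `dc · v(R) dR · w(Y) dY · z(Z) dZ` on `[0,1]² × ℝ³` -/
noncomputable def mu3 (v w z : ℝ → ℝ) : Measure Vr := (volume.restrict Tq).prod ((wm v).prod ((wm w).prod (wm z)))

/-- the region -/
def Rgl (L : Fm) (H lam ρ : ℝ) (B : Finset (ℤ × ℤ)) : Prop :=
  ∀ k ∈ B, H / lam ≤ ul L k ∧ ul L k ≤ lam * H ∧ |tl L k| ≤ ρ

/-- the phase `u P(t)`, `P(t) = t⁴ + R₃ t³ + R₂ t² + β t + α` -/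
noncomputable def ph4 (L : Fm) (R₂ R₃ α β : ℝ) (k : ℤ × ℤ) : ℝ :=
  ul L k * (tl L k ^ 4 + R₃ * tl L k ^ 3 + R₂ * tl L k ^ 2 + β * tl L k + α)

/-- the functional whose value on the frequencies is `ph4` -/
noncomputable def Lam (L : Fm) (R₂ R₃ α β : ℝ) (k : ℤ × ℤ) (ξ η ζ : ℝ) : ℝ :=
  ζ + R₃ * η + R₂ * ξ + β * vl L k + α * ul L k

theorem ul_add (L : Fm) (k l : ℤ × ℤ) : ul L (k + l) = ul L k + ul L l := by
  unfold ul
  rw [Prod.fst_add, Prod.snd_add]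
  push_cast
  ring

theorem vl_add (L : Fm) (k l : ℤ × ℤ) : vl L (k + l) = vl L k + vl L l := by
  unfold vl
  rw [Prod.fst_add, Prod.snd_add]
  push_cast
  ring

theorem ul_neg (L : Fm) (k : ℤ × ℤ) : ul L (-k) = -ul L k := by
  unfold ul
  rw [Prod.fst_neg, Prod.snd_neg]
  push_cast
  ring

theorem vl_neg (L : Fm) (k : ℤ × ℤ) : vl L (-k) = -vl L k := by
  unfold vl
  rw [Prod.fst_neg, Prod.snd_neg]
  push_cast
  ring

theorem Lam_add {L : Fm} {R₂ R₃ α β : ℝ} (k : ℤ × ℤ) (ξ η ζ : ℝ) {y : ℤ × ℤ} (hy : 0 < ul L y) :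
    Lam L R₂ R₃ α β (k + y) (ξ + pw L 2 y) (η + pw L 3 y) (ζ + pw L 4 y) = Lam L R₂ R₃ α β k ξ η ζ + ph4 L R₂ R₃ α β y := by
  have e : vl L y = ul L y * tl L y := by
    unfold tl
    field_simp
  unfold Lam ph4 pw
  rw [ul_add, vl_add, e]
  ring

theorem Lam_sub {L : Fm} {R₂ R₃ α β : ℝ} (k : ℤ × ℤ) (ξ η ζ : ℝ) {y : ℤ × ℤ} (hy : 0 < ul L y) :
    Lam L R₂ R₃ α β (k - y) (ξ - pw L 2 y) (η - pw L 3 y) (ζ - pw L 4 y) = Lam L R₂ R₃ α β k ξ η ζ - ph4 L R₂ R₃ α β y := by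
  have e : vl L y = ul L y * tl L y := by
    unfold tl
    field_simp
  unfold Lam ph4 pw
  rw [sub_eq_add_neg k y, ul_add, vl_add, ul_neg, vl_neg, e]
  ring

theorem mem_arl {L : Fm} {o : ℝ} {S : Finset (ℤ × ℤ)} {N j : ℕ} {k : ℤ × ℤ} :
    k ∈ arl L o S N j ↔ k ∈ S ∧ ⌊(N : ℝ) * ((tl L k + o) / 12)⌋₊ = j := by
  classical
  unfold arl
  rw [Finset.mem_filter]

end Pool.Agent.Helper82.QG
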