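import Pool.Agent.Helper82.QG.A8

/-!
# QG: the region theorem of order twenty for the curve `(t², t³, t⁴)` and arbitrary real linear forms

`dec20`: for every `ε > 0`, `lam ≥ 1` there are `M ≥ 2`, `C ≥ 1` such that for all finite sets `S` of frequencies with
`H / lam ≤ u ≤ lam H`, `|t| ≤ ρ`, `t + o ∈ [0, 12)`, the `L²⁰` norm of the sum over `S` for `dc · v(R) dR · w(Y) dY · z(Z) dZ` decouples into `M^m` arcs of `t + o`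
as soon as `C (1 / X₃ + ρ / X₂ + ρ² / X₁) ≤ H (1 / M^m)⁴`.
-/

open MeasureTheory Real Set Filter Topology

set_option autoImplicit false

namespace Pool.Agent.Helper82.QG

open Pool.Agent.Helper22.AE
open Pool.Agent.Helper92.GC
open Pool.Agent.Helper22.AC (IsWt)
open Pool.Agent.Helper93.ED (n20 n20_nonneg)

theorem dec20 {ε lam : ℝ} (hε : 0 < ε) (hl : 1 ≤ lam) : ∃ M : ℕ, 2 ≤ M ∧ ∃ C : ℝ, 1 ≤ C ∧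
    ∀ (m : ℕ) (L : Fm) (o H ρ X₁ X₂ X₃ : ℝ) (v w z : ℝ → ℝ) (a : ℤ × ℤ → ℂ) (S : Finset (ℤ × ℤ)), 0 < H → 0 < X₁ → 0 < X₂ → 0 < X₃ →
      0 ≤ ρ → (∀ k ∈ S, 0 ≤ tl L k + o ∧ tl L k + o < 12) → (∀ k ∈ S, H / lam ≤ ul L k ∧ ul L k ≤ lam * H ∧ |tl L k| ≤ ρ) → IsWt X₁ v → IsWt X₂ w → IsWt X₃ z →
      C * (1 / X₃ + ρ / X₂ + ρ ^ 2 / X₁) ≤ H * (1 / (M : ℝ) ^ m) ^ 4 →
      n20 (mu3 v w z) (hq S a (pw L 2) (pw L 3) (pw L 4)) ≤ C * (M : ℝ) ^ (ε * (m : ℝ)) *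
        ∑ r ∈ Finset.range (M ^ m), n20 (mu3 v w z) (hq (arl L o S (M ^ m) r) a (pw L 2) (pw L 3) (pw L 4)) := by
  obtain ⟨M₀, hM₀, C₁, hC₁, hsl⟩ := slab4 (ε := ε / 2) (lam := lam) (by positivity) hl
  obtain ⟨N₁, hN₁⟩ : ∃ N₁ : ℕ, N₁ = ⌈24 / ε⌉₊ + 1 := ⟨_, rfl⟩
  have hN1 : 1 ≤ N₁ := by omega
  have hN2 : 24 / ε ≤ N₁ := by
    rw [hN₁]
    push_cast
    have := Nat.le_ceil (24 / ε)
    linarith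
  have hN3 : 24 ≤ N₁ * ε := by rwa [div_le_iff₀ hε] at hN2
  obtain ⟨Λ, hΛ⟩ : ∃ Λ : ℕ, Λ = ⌈lam⌉₊ + 1 := ⟨_, rfl⟩
  have hΛ1 : lam < Λ := by
    rw [hΛ]
    push_cast
    have := Nat.le_ceil lam
    linarith
  have hM₀r : (2 : ℝ) ≤ M₀ := by exact_mod_cast hM₀
  have hM₀0 : (0 : ℝ) < M₀ := by linarith
  have hΛ0 : (0 : ℝ) < Λ := by linarith
  obtain ⟨K, hK⟩ : ∃ K : ℝ, K = (Λ : ℝ) ^ (29 / 10 : ℝ) * (M₀ : ℝ) ^ (116 / 5 : ℝ) * (C₁ ^ N₁ * (50 * 50) ^ 2) := ⟨_, rfl⟩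
  have hK0 : 0 ≤ K := by rw [hK]; positivity
  refine ⟨M₀ ^ N₁, ?_, K + 6, by linarith, ?_⟩
  · calc 2 ≤ M₀ := hM₀
      _ = M₀ ^ 1 := (pow_one _).symm
      _ ≤ M₀ ^ N₁ := Nat.pow_le_pow_right (by omega) hN1
  intro m L o H ρ X₁ X₂ X₃ v w z a S hH hX₁ hX₂ hX₃ hρ0 hpos hS hv hw hz hX
  have hpm : (M₀ ^ N₁) ^ m = M₀ ^ (N₁ * m) := by rw [← pow_mul]
  have hX' : 1 / X₃ + 4 * ρ / X₂ + 6 * ρ ^ 2 / X₁ < H * (12 / (M₀ : ℝ) ^ (N₁ * m)) ^ 4 := by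
    have h1 : 1 / X₃ + 4 * ρ / X₂ + 6 * ρ ^ 2 / X₁ ≤ (K + 6) * (1 / X₃ + ρ / X₂ + ρ ^ 2 / X₁) := by
      have h2 : 0 < 1 / X₃ := by positivity
      have h3 : 0 ≤ ρ / X₂ := by positivity
      have h4 : 0 ≤ ρ ^ 2 / X₁ := by positivity
      have e1 : 4 * ρ / X₂ = 4 * (ρ / X₂) := by ring
      have e2 : 6 * ρ ^ 2 / X₁ = 6 * (ρ ^ 2 / X₁) := by ring
      rw [e1, e2]
      nlinarith [mul_nonneg hK0 h2.le, mul_nonneg hK0 h3, mul_nonneg hK0 h4]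
    refine (h1.trans hX).trans_lt (mul_lt_mul_of_pos_left ?_ hH)
    refine pow_lt_pow_left₀ ?_ (by positivity) (by norm_num)
    push_cast
    rw [← pow_mul]
    exact div_lt_div_of_pos_right (by norm_num) (by positivity)
  have hmain := main20 (Λ := Λ) (E := 4 * m + 8) (P := M₀ ^ (N₁ * m)) (M := M₀) (a := a)
    (D := C₁ ^ N₁ * (M₀ : ℝ) ^ (ε / 2 * ((N₁ * m : ℕ) : ℝ))) hl hΛ1 (by omega) hH hS hv hw hz (by positivity)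
    (fun B hBS hB => hsl m N₁ L o H ρ X₁ X₂ X₃ _ v w z a B hH (fun k hk => hpos k (hBS hk)) hX₁ hX₂ hX₃ (fun k hk => hS k (hBS hk)) hv hw hz (by positivity) hB le_rfl hX')
  rw [hpm]
  change n20 (mu3 v w z) (hc L a S) ≤ _ * ∑ r ∈ Finset.range (M₀ ^ (N₁ * m)), n20 (mu3 v w z) (hc L a (arl L o S (M₀ ^ (N₁ * m)) r))
  refine hmain.trans ?_
  obtain ⟨W, hW⟩ : ∃ W, W = ∑ r ∈ Finset.range (M₀ ^ (N₁ * m)), n20 (mu3 v w z) (hc L a (arl L o S (M₀ ^ (N₁ * m)) r)) := ⟨_, rfl⟩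
  have hW0 : 0 ≤ W := by rw [hW]; exact Finset.sum_nonneg fun _ _ => n20_nonneg _ _
  rw [← hW]
  have e1 : ((Λ : ℝ) * (M₀ : ℝ) ^ (4 * m + 8)) ^ (19 / 10 : ℝ) * ((Λ : ℝ) * (M₀ : ℝ) ^ (4 * m + 8)) =
      (Λ : ℝ) ^ (29 / 10 : ℝ) * ((M₀ : ℝ) ^ (4 * m + 8)) ^ (29 / 10 : ℝ) := by
    have h1 : (0 : ℝ) < (Λ : ℝ) * (M₀ : ℝ) ^ (4 * m + 8) := by positivity
    calc ((Λ : ℝ) * (M₀ : ℝ) ^ (4 * m + 8)) ^ (19 / 10 : ℝ) * ((Λ : ℝ) * (M₀ : ℝ) ^ (4 * m + 8)) =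
        ((Λ : ℝ) * (M₀ : ℝ) ^ (4 * m + 8)) ^ (19 / 10 : ℝ) * ((Λ : ℝ) * (M₀ : ℝ) ^ (4 * m + 8)) ^ (1 : ℝ) := by rw [rpow_one]
      _ = ((Λ : ℝ) * (M₀ : ℝ) ^ (4 * m + 8)) ^ (29 / 10 : ℝ) := by
          rw [← rpow_add h1]
          norm_num
      _ = _ := mul_rpow hΛ0.le (by positivity)
  have e2 : ((M₀ : ℝ) ^ (4 * m + 8)) ^ (29 / 10 : ℝ) * (M₀ : ℝ) ^ (ε / 2 * ((N₁ * m : ℕ) : ℝ)) ≤
      (M₀ : ℝ) ^ (116 / 5 : ℝ) * ((M₀ ^ N₁ : ℕ) : ℝ) ^ (ε * (m : ℝ)) := by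
    push_cast
    rw [← rpow_natCast (M₀ : ℝ) (4 * m + 8), ← rpow_natCast (M₀ : ℝ) N₁, ← rpow_mul hM₀0.le, ← rpow_mul hM₀0.le, ← rpow_add hM₀0,
      ← rpow_add hM₀0]
    refine rpow_le_rpow_of_exponent_le (by linarith) ?_
    push_cast
    have hm0 : (0 : ℝ) ≤ m := by positivity
    nlinarith [mul_le_mul_of_nonneg_left hN3 hm0]
  calc ((Λ : ℝ) * (M₀ : ℝ) ^ (4 * m + 8)) ^ (19 / 10 : ℝ) * (((Λ : ℝ) * (M₀ : ℝ) ^ (4 * m + 8)) *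
        (C₁ ^ N₁ * (M₀ : ℝ) ^ (ε / 2 * ((N₁ * m : ℕ) : ℝ)) * ((50 * 50 : ℝ) ^ 2 * W)))
      = (((Λ : ℝ) * (M₀ : ℝ) ^ (4 * m + 8)) ^ (19 / 10 : ℝ) * ((Λ : ℝ) * (M₀ : ℝ) ^ (4 * m + 8))) *
          (M₀ : ℝ) ^ (ε / 2 * ((N₁ * m : ℕ) : ℝ)) * (C₁ ^ N₁ * (50 * 50) ^ 2 * W) := by ring
    _ = (Λ : ℝ) ^ (29 / 10 : ℝ) * (((M₀ : ℝ) ^ (4 * m + 8)) ^ (29 / 10 : ℝ) * (M₀ : ℝ) ^ (ε / 2 * ((N₁ * m : ℕ) : ℝ))) *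
          (C₁ ^ N₁ * (50 * 50) ^ 2 * W) := by rw [e1]; ring
    _ ≤ (Λ : ℝ) ^ (29 / 10 : ℝ) * ((M₀ : ℝ) ^ (116 / 5 : ℝ) * ((M₀ ^ N₁ : ℕ) : ℝ) ^ (ε * (m : ℝ))) *
          (C₁ ^ N₁ * (50 * 50) ^ 2 * W) := by
        refine mul_le_mul_of_nonneg_right (mul_le_mul_of_nonneg_left e2 (by positivity)) (by positivity)
    _ = K * ((M₀ ^ N₁ : ℕ) : ℝ) ^ (ε * (m : ℝ)) * W := by rw [hK]; ring
    _ ≤ (K + 6) * ((M₀ ^ N₁ : ℕ) : ℝ) ^ (ε * (m : ℝ)) * W := by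
        refine mul_le_mul_of_nonneg_right (mul_le_mul_of_nonneg_right (by linarith) (by positivity)) hW0

end Pool.Agent.Helper82.QG
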